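import Pool.Agent.H656R2.AK.Defs

/-!
# Pomax games
-/

namespace Pool.Agent.Q227.PX

/-- The pomax game on the poset with strict order `r` (`r x y` means `x < y`), coloured by `col`
(`true` is white, `false` is black). `MoverWins r col p S`: in the position with the remaining
elements `S` the player of colour `p`, who is to move, has a winning strategy under normal play. He
deletes an element `x` of his colour which is maximal in `S`, and after every answer of the
opponent (who deletes a maximal element of the other colour) he wins again; in particular he wins
if the opponent has no legal move. -/
inductive MoverWins {V : Type*} (r : V → V → Prop) (col : V → Bool) (p : Bool) : Set V → Prop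
  | mk {S : Set V} (x : V) (hx : x ∈ S) (hc : col x = p) (hm : ∀ y ∈ S, ¬ r x y)
      (h : ∀ y ∈ S \ {x}, col y = !p → (∀ z ∈ S \ {x}, ¬ r y z) →
        MoverWins r col p ((S \ {x}) \ {y})) : MoverWins r col p S

/-- The code of an instance: the matrix of the strict order and the list of colours. -/
def code {n : ℕ} (r : Fin n → Fin n → Bool) (col : Fin n → Bool) : List (List Bool) × List Bool :=
  (List.ofFn fun i => List.ofFn fun j => r i j, List.ofFn col)

/-- `r` is a strict partial order in which there is no chain `x < y < z`. -/
def HeightTwo {n : ℕ} (r : Fin n → Fin n → Bool) : Prop :=
  IsStrictOrder (Fin n) (fun x y => r x y = true) ∧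
    ∀ x y z, ¬ (r x y = true ∧ r y z = true)

/-- The outcome of pomax games of height at most two when the player of colour `s` starts: given a
coloured poset of height at most two, does White win the pomax game if `s` starts? -/
def WhiteWins (s : Bool) (c : List (List Bool) × List Bool) : Prop :=
  ∃ (n : ℕ) (r : Fin n → Fin n → Bool) (col : Fin n → Bool), code r col = c ∧ HeightTwo r ∧
    ((s = true ∧ MoverWins (fun x y => r x y = true) col true Set.univ) ∨
      (s = false ∧ ¬ MoverWins (fun x y => r x y = true) col false Set.univ))

/-- The problem whether a pomax game of height at most two equals `0`, that is, neither of the two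
players wins if he starts. -/
def IsZero (c : List (List Bool) × List Bool) : Prop :=
  ∃ (n : ℕ) (r : Fin n → Fin n → Bool) (col : Fin n → Bool), code r col = c ∧ HeightTwo r ∧
    ¬ MoverWins (fun x y => r x y = true) col true Set.univ ∧
    ¬ MoverWins (fun x y => r x y = true) col false Set.univ

end Pool.Agent.Q227.PX
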