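import Pool.Agent.H656R2.AK.AKIn
import Pool.Agent.H656R2.AK.TQPoly
import Pool.Agent.Q227.PX.Defs

/-!
# Pomax games are in PSPACE
-/

namespace Pool.Agent.Q227.PX

open Pool.Agent.NPC Pool.Agent.H623R2.PS Pool.Agent.H656R2.AK

set_option linter.unusedSectionVars false

/-! ### Transfer along bisimulations -/

theorem W_bisim {α β : Type*} {mv : α → α → Prop} {mv' : β → β → Prop} (B : α → β → Prop)
    (h1 : ∀ a b a', B a b → mv a a' → ∃ b', mv' b b' ∧ B a' b')
    (h2 : ∀ a b b', B a b → mv' b b' → ∃ a', mv a a' ∧ B a' b') {a : α} (h : W mv a) :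
    ∀ b, B a b → W mv' b := by
  induction h with
  | mk a a1 h hb ih =>
    intro b hab
    obtain ⟨b1, hb1, hB⟩ := h1 a b a1 hab h
    refine W.mk b b1 hb1 fun c' hc' => ?_
    obtain ⟨c, hc, hB'⟩ := h2 a1 b1 c' hB hc'
    exact ih c hc c' hB'

theorem W_iff_bisim {α β : Type*} {mv : α → α → Prop} {mv' : β → β → Prop} (B : α → β → Prop)
    (h1 : ∀ a b a', B a b → mv a a' → ∃ b', mv' b b' ∧ B a' b')
    (h2 : ∀ a b b', B a b → mv' b b' → ∃ a', mv a a' ∧ B a' b') {a : α} {b : β} (hB : B a b) :
    W mv a ↔ W mv' b := by
  refine ⟨fun h => W_bisim B h1 h2 h b hB, fun h => ?_⟩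
  refine W_bisim (fun b a => B a b) ?_ ?_ h a hB
  · intro b a b' h h'
    exact h2 a b b' h h'
  · intro b a a' h h'
    exact h1 a b a' h h'

/-- the moves on sets -/
def mvP {V : Type*} (r : V → V → Prop) (col : V → Bool) (a b : Set V × Bool) : Prop :=
  ∃ x ∈ a.1, col x = a.2 ∧ (∀ y ∈ a.1, ¬ r x y) ∧ b = (a.1 \ {x}, !a.2)

theorem moverWins_iff {V : Type*} {r : V → V → Prop} {col : V → Bool} (p : Bool) (S : Set V) :
    MoverWins r col p S ↔ W (mvP r col) (S, p) := by
  constructor
  · intro h
    induction h with
    | @mk S x hx hc hm h ih =>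
      refine W.mk _ (S \ {x}, !p) ⟨x, hx, hc, hm, rfl⟩ ?_
      rintro c ⟨y, hy, hyc, hym, rfl⟩
      have := ih y hy hyc hym
      simpa using this
  · intro h
    have key : ∀ a : Set V × Bool, W (mvP r col) a → MoverWins r col a.2 a.1 := by
      intro a h
      induction h with
      | mk a b h hb ih =>
        obtain ⟨S, p⟩ := a
        obtain ⟨x, hx, hc, hm, rfl⟩ := h
        refine MoverWins.mk x hx hc hm fun y hy hyc hym => ?_
        have := ih ((S \ {x}) \ {y}, !!p) ⟨y, hy, hyc, hym, rfl⟩
        simpa using this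
    exact key _ h

/-! ### The game on lists -/

/-- positions: matrix, colours, remaining elements, player, phase -/
abbrev Ps := List (List Bool) × List Bool × List ℕ × Bool × List Bool

/-- the legal moves in the game -/
def gMoves (b : Ps) : List Ps :=
  (b.2.2.1.filter fun x => decide (b.2.1.getD x false = b.2.2.2.1) &&
    b.2.2.1.all fun y => !ent b.1 x y).map fun x =>
      (b.1, b.2.1, b.2.2.1.filter (fun y => !decide (y = x)), !b.2.2.2.1, [])

/-- the moves -/
def moves (b : Ps) : List Ps :=
  if b.2.2.2.2.isEmpty = true then gMoves b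
  else if b.2.2.2.2.length = 2 then
    [(b.1, b.2.1, b.2.2.1, true, b.2.2.2.2.tail), (b.1, b.2.1, b.2.2.1, false, b.2.2.2.2.tail)]
  else [(b.1, b.2.1, b.2.2.1, b.2.2.2.1, b.2.2.2.2.tail)]

theorem poly_gMoves : NPC.Poly gMoves := by
  unfold gMoves
  have h0 : NPC.Poly (fun q : Ps × ℕ => q.1.2.2.1.all fun y => !ent q.1.1 q.2 y) :=
    NPC.Poly.all (l := fun q : Ps × ℕ => q.1.2.2.1) (p := fun q y => !ent q.1.1 q.2 y)
      (by fun_prop) (by fun_prop)
  have h1 : NPC.Poly (fun b : Ps => b.2.2.1.filter fun x =>
      decide (b.2.1.getD x false = b.2.2.2.1) && b.2.2.1.all fun y => !ent b.1 x y) :=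
    NPC.Poly.filter (l := fun b : Ps => b.2.2.1)
      (p := fun b x => decide (b.2.1.getD x false = b.2.2.2.1) &&
        b.2.2.1.all fun y => !ent b.1 x y) (by fun_prop) (NPC.Poly.and (by fun_prop) h0)
  refine NPC.Poly.map (F := fun (b : Ps) (x : ℕ) =>
    ((b.1, b.2.1, b.2.2.1.filter (fun y => !decide (y = x)), !b.2.2.2.1, []) : Ps)) h1 ?_
  refine NPC.Poly.pair (by fun_prop) (NPC.Poly.pair (by fun_prop) (NPC.Poly.pair ?_
    (by fun_prop)))
  exact NPC.Poly.filter (l := fun q : Ps × ℕ => q.1.2.2.1)
    (p := fun q y => !decide (y = q.2)) (by fun_prop) (by fun_prop)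

theorem poly_moves : NPC.Poly moves := by
  unfold moves
  have h1 := poly_gMoves
  refine NPC.Poly.ite (by fun_prop) h1 ?_
  have h2 : NPC.Poly (fun b : Ps => b.2.2.2.2.length) :=
    UPoly.toPoly (UPoly.length (l := fun b : Ps => b.2.2.2.2) (by fun_prop))
  refine NPC.Poly.ite (by fun_prop) ?_ ?_
  · fun_prop
  · fun_prop

theorem sz_filter_ne {u : ℕ} : ∀ {l : List ℕ}, u ∈ l →
    sz (l.filter fun x => !decide (x = u)) + sz u + 1 ≤ sz l
  | [], h => by simp at h
  | a :: l, h => by
    rw [List.filter_cons]
    by_cases ha : a = u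
    · subst ha
      have := sz_filter_le' (fun x => !decide (x = a)) l
      simp only [decide_true, Bool.not_true, Bool.false_eq_true, if_false, sz_list_cons]
      omega
    · have h1 : u ∈ l := by
        rcases List.mem_cons.1 h with h | h
        · exact absurd h.symm ha
        · exact h
      have := sz_filter_ne h1
      simp only [ha, decide_false, Bool.not_false, if_true, sz_list_cons]
      omega

theorem length_filter_ne {u : ℕ} {l : List ℕ} (h : u ∈ l) :
    (l.filter fun x => !decide (x = u)).length + 1 ≤ l.length := by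
  have : (l.filter fun x => !decide (x = u)).length < l.length := by
    rw [List.length_filter_lt_length_iff_exists]
    exact ⟨u, h, by simp⟩
  omega

theorem sz_tail (l : List Bool) : l ≠ [] → sz l.tail + 2 ≤ sz l := by
  cases l with
  | nil => simp
  | cons a l =>
    intro _
    have := sz_pos a
    simp only [List.tail_cons, sz_list_cons]
    omega

theorem mem_gMoves {b b' : Ps} : b' ∈ gMoves b ↔ ∃ x ∈ b.2.2.1, b.2.1.getD x false = b.2.2.2.1 ∧
    (∀ y ∈ b.2.2.1, ¬ ent b.1 x y = true) ∧
      b' = (b.1, b.2.1, b.2.2.1.filter (fun y => !decide (y = x)), !b.2.2.2.1, []) := by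
  unfold gMoves
  rw [List.mem_map]
  constructor
  · rintro ⟨x, h, rfl⟩
    rw [List.mem_filter, Bool.and_eq_true, decide_eq_true_eq, List.all_eq_true] at h
    exact ⟨x, h.1, h.2.1, fun y hy => by simpa using h.2.2 y hy, rfl⟩
  · rintro ⟨x, hx, hc, hm, rfl⟩
    refine ⟨x, ?_, rfl⟩
    rw [List.mem_filter, Bool.and_eq_true, decide_eq_true_eq, List.all_eq_true]
    exact ⟨hx, hc, fun y hy => by simpa using hm y hy⟩

theorem sz_moves (b : Ps) : ∀ b' ∈ moves b, sz b' ≤ sz b := by
  obtain ⟨M, col, L, p, ph⟩ := b
  intro b' hb'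
  unfold moves at hb'
  simp only at hb'
  split_ifs at hb' with h1 h2
  · rw [mem_gMoves] at hb'
    obtain ⟨x, hx, hc, hm, rfl⟩ := hb'
    rw [List.isEmpty_iff] at h1
    subst h1
    simp only at hx
    have e1 := sz_filter_ne hx
    have e2 := sz_bool_le (!p)
    have e3 := sz_pos p
    have e4 := sz_pos x
    simp only [sz_pair, sz_list_nil]
    omega
  · rw [List.isEmpty_iff] at h1
    have e1 := sz_tail ph h1
    have e3 := sz_pos p
    rcases List.mem_cons.1 hb' with rfl | hb'
    · simp only [sz_pair, sz_true]
      omega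
    · rw [List.mem_singleton] at hb'
      subst hb'
      simp only [sz_pair, sz_false]
      omega
  · rw [List.isEmpty_iff] at h1
    have e1 := sz_tail ph h1
    rw [List.mem_singleton] at hb'
    subst hb'
    simp only [sz_pair]
    omega

/-- the rank -/
def rank (b : Ps) : ℕ := b.2.2.1.length + b.2.2.2.2.length

theorem rank_moves (b : Ps) (n : ℕ) (h : b.2.2.1.length ≤ n ∧ b.2.2.2.2.length ≤ 3) :
    ∀ b' ∈ moves b, (b'.2.2.1.length ≤ n ∧ b'.2.2.2.2.length ≤ 3) ∧ rank b' < rank b := by
  obtain ⟨M, col, L, p, ph⟩ := b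
  simp only at h
  intro b' hb'
  unfold moves at hb'
  simp only at hb'
  split_ifs at hb' with h1 h2
  · rw [mem_gMoves] at hb'
    obtain ⟨x, hx, hc, hm, rfl⟩ := hb'
    rw [List.isEmpty_iff] at h1
    subst h1
    simp only at hx
    have e1 := length_filter_ne hx
    simp only [rank, List.length_nil]
    omega
  · rcases List.mem_cons.1 hb' with rfl | hb'
    · simp only [rank, List.length_tail]
      omega
    · rw [List.mem_singleton] at hb'
      subst hb'
      simp only [rank, List.length_tail]
      omega
  · rw [List.isEmpty_iff] at h1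
    have := List.length_pos_iff.2 h1
    rw [List.mem_singleton] at hb'
    subst hb'
    simp only [rank, List.length_tail]
    omega

theorem length_moves (b : Ps) (n : ℕ) (h : b.2.2.1.length ≤ n ∧ b.2.2.2.2.length ≤ 3) :
    (moves b).length ≤ n + 2 := by
  obtain ⟨M, col, L, p, ph⟩ := b
  simp only at h
  unfold moves
  simp only
  split_ifs with h1 h2
  · unfold gMoves
    rw [List.length_map]
    refine (List.length_filter_le _ _).trans ?_
    simp only
    omega
  · simp
  · simp

/-! ### Valid codes -/

/-- the test for codes -/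
def valid (c : List (List Bool) × List Bool) : Bool :=
  (decide (c.2.length = c.1.length) && c.1.all fun r => decide (r.length = c.1.length)) &&
    (List.range c.1.length).all fun i => (List.range c.1.length).all fun j => !ent c.1 i j ||
      ((!decide (i = j)) && (List.range c.1.length).all fun k => !ent c.1 j k)

theorem poly_valid : NPC.Poly valid := by
  have h : UPoly (fun c : List (List Bool) × List Bool => c.1.length) := UPoly.length (by fun_prop)
  have hp := h.toPoly
  have h1 := h.range
  have h2 : NPC.Poly (fun q : ((List (List Bool) × List Bool) × ℕ) × ℕ =>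
      (List.range q.1.1.1.length).all fun k => !ent q.1.1.1 q.2 k) :=
    NPC.Poly.all (l := fun q : ((List (List Bool) × List Bool) × ℕ) × ℕ =>
        List.range q.1.1.1.length)
      (p := fun q k => !ent q.1.1.1 q.2 k) (h1.comp (by fun_prop)) (by fun_prop)
  have h3 : NPC.Poly (fun q : (List (List Bool) × List Bool) × ℕ =>
      (List.range q.1.1.length).all fun j => !ent q.1.1 q.2 j ||
      ((!decide (q.2 = j)) && (List.range q.1.1.length).all fun k => !ent q.1.1 j k)) :=
    NPC.Poly.all (l := fun q : (List (List Bool) × List Bool) × ℕ => List.range q.1.1.length)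
      (p := fun q j => !ent q.1.1 q.2 j ||
      ((!decide (q.2 = j)) && (List.range q.1.1.length).all fun k => !ent q.1.1 j k))
      (h1.comp (by fun_prop)) (NPC.Poly.or (by fun_prop) (NPC.Poly.and (by fun_prop) h2))
  have h4 : NPC.Poly (fun c : List (List Bool) × List Bool =>
      c.1.all fun r => decide (r.length = c.1.length)) := by
    refine NPC.Poly.all (l := fun c : List (List Bool) × List Bool => c.1)
      (p := fun c r => decide (r.length = c.1.length)) (by fun_prop) ?_
    have h5 : NPC.Poly (fun q : (List (List Bool) × List Bool) × List Bool => q.2.length) :=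
      UPoly.toPoly (UPoly.length (l := fun q : (List (List Bool) × List Bool) × List Bool => q.2)
        (by fun_prop))
    have h6 : NPC.Poly (fun q : (List (List Bool) × List Bool) × List Bool => q.1.1.length) :=
      hp.comp (by fun_prop)
    fun_prop
  have h7 : NPC.Poly (fun c : List (List Bool) × List Bool => decide (c.2.length = c.1.length)) := by
    have h8 : NPC.Poly (fun q : List (List Bool) × List Bool => q.2.length) :=
      UPoly.toPoly (UPoly.length (l := fun q : List (List Bool) × List Bool => q.2)
        (by fun_prop))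
    fun_prop
  unfold valid
  refine NPC.Poly.and (NPC.Poly.and h7 h4) ?_
  exact NPC.Poly.all (l := fun c : List (List Bool) × List Bool => List.range c.1.length)
    (p := fun c i => (List.range c.1.length).all fun j => !ent c.1 i j ||
      ((!decide (i = j)) && (List.range c.1.length).all fun k => !ent c.1 j k)) h1 h3

theorem code_len1 {n : ℕ} (r : Fin n → Fin n → Bool) (col : Fin n → Bool) :
    (code r col).1.length = n := by simp [code]

theorem code_len2 {n : ℕ} (r : Fin n → Fin n → Bool) (col : Fin n → Bool) :
    (code r col).2.length = n := by simp [code]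

theorem ent_code {n : ℕ} (r : Fin n → Fin n → Bool) (col : Fin n → Bool) (i j : Fin n) :
    ent (code r col).1 i j = r i j := by
  simp [ent, code, List.getD_eq_getElem?_getD]

theorem getD_code {n : ℕ} (r : Fin n → Fin n → Bool) (col : Fin n → Bool) (i : Fin n) :
    (code r col).2.getD i false = col i := by
  simp [code, List.getD_eq_getElem?_getD]

theorem code_inj {n m : ℕ} {r : Fin n → Fin n → Bool} {col : Fin n → Bool}
    {r' : Fin m → Fin m → Bool} {col' : Fin m → Bool} (h : code r col = code r' col') :
    ∃ e : n = m, (∀ i j, r i j = r' (Fin.cast e i) (Fin.cast e j)) ∧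
      ∀ i, col i = col' (Fin.cast e i) := by
  have e : n = m := by
    have := congrArg (fun c => c.1.length) h
    simpa [code_len1] using this
  subst e
  refine ⟨rfl, fun i j => ?_, fun i => ?_⟩
  · have := ent_code r col i j
    rw [h, ent_code] at this
    exact this.symm
  · have := getD_code r col i
    rw [h, getD_code] at this
    exact this.symm

theorem code_inj' {n : ℕ} {r : Fin n → Fin n → Bool} {col : Fin n → Bool} {m : ℕ}
    {r' : Fin m → Fin m → Bool} {col' : Fin m → Bool} (h : code r' col' = code r col)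
    (P : ∀ n : ℕ, (Fin n → Fin n → Bool) → (Fin n → Bool) → Prop) (hP : P m r' col') :
    P n r col := by
  obtain ⟨e, h1, h2⟩ := code_inj h
  subst e
  have e1 : r' = r := by
    funext i j
    exact h1 i j
  have e2 : col' = col := by
    funext i
    exact h2 i
  rw [← e1, ← e2]
  exact hP

/-- the order of a code -/
def rM (c : List (List Bool) × List Bool) (i j : Fin c.1.length) : Bool := ent c.1 i j

/-- the colours of a code -/
def cM (c : List (List Bool) × List Bool) (i : Fin c.1.length) : Bool := c.2.getD i false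

theorem valid_iff (c : List (List Bool) × List Bool) : valid c = true ↔
    (c.2.length = c.1.length ∧ ∀ r ∈ c.1, r.length = c.1.length) ∧
      ∀ i j : Fin c.1.length, rM c i j = true → i ≠ j ∧ ∀ k, ¬ rM c j k = true := by
  unfold valid
  simp only [Bool.and_eq_true, decide_eq_true_eq, List.all_eq_true, Bool.or_eq_true,
    Bool.not_eq_true', decide_eq_false_iff_not, List.mem_range]
  refine and_congr_right fun _ => ?_
  constructor
  · intro h i j hij
    rcases h i i.isLt j j.isLt with h1 | ⟨h1, h2⟩
    · unfold rM at hij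
      rw [hij] at h1
      simp at h1
    · refine ⟨fun e => h1 (congrArg Fin.val e), fun k hk => ?_⟩
      have h3 := h2 k k.isLt
      unfold rM at hk
      rw [hk] at h3
      simp at h3
  · intro h i hi j hj
    by_cases hij : ent c.1 i j = true
    · obtain ⟨h1, h2⟩ := h ⟨i, hi⟩ ⟨j, hj⟩ hij
      refine Or.inr ⟨fun e => h1 (Fin.ext e), fun k hk => ?_⟩
      have := h2 ⟨k, hk⟩
      unfold rM at this
      simpa using this
    · exact Or.inl (by simpa using hij)

theorem code_rM {c : List (List Bool) × List Bool} (h : valid c = true) :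
    code (rM c) (cM c) = c := by
  rw [valid_iff] at h
  obtain ⟨⟨h1, h2⟩, -⟩ := h
  obtain ⟨M, col⟩ := c
  simp only at h1 h2
  unfold code
  refine Prod.ext ?_ ?_
  · simp only
    refine List.ext_getElem (by simp) fun i hi hi' => ?_
    have h3 := h2 M[i] (List.getElem_mem _)
    rw [List.getElem_ofFn]
    refine List.ext_getElem (by simp [h3]) fun j hj hj' => ?_
    rw [List.getElem_ofFn]
    simp [rM, ent, List.getD_eq_getElem?_getD, hi', hj']
  · simp only
    refine List.ext_getElem (by simp [h1]) fun i hi hi' => ?_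
    rw [List.getElem_ofFn]
    simp [cM, List.getD_eq_getElem?_getD, hi']

theorem heightTwo_iff {n : ℕ} (r : Fin n → Fin n → Bool) : HeightTwo r ↔
    ∀ i j, r i j = true → i ≠ j ∧ ∀ k, ¬ r j k = true := by
  constructor
  · rintro ⟨h1, h2⟩ i j hij
    refine ⟨fun e => ?_, fun k hk => h2 i j k ⟨hij, hk⟩⟩
    subst e
    exact h1.irrefl i hij
  · intro h
    have hi : ∀ i, ¬ r i i = true := fun i hi => (h i i hi).1 rfl
    have ht : ∀ i j k, r i j = true → r j k = true → r i k = true := fun i j k h1 h2 =>
      absurd h2 ((h i j h1).2 k)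
    exact ⟨{ irrefl := hi, trans := ht }, fun i j k hh => (h i j hh.1).2 k hh.2⟩

theorem valid_code {n : ℕ} {r : Fin n → Fin n → Bool} {col : Fin n → Bool} :
    valid (code r col) = true ↔ HeightTwo r := by
  rw [valid_iff, heightTwo_iff]
  have hl := code_len1 r col
  constructor
  · rintro ⟨-, h⟩ i j hij
    have := h (Fin.cast hl.symm i) (Fin.cast hl.symm j) (by
      have := ent_code r col i j
      unfold rM
      rw [← hij, ← this]
      rfl)
    refine ⟨fun e => this.1 (by rw [e]), fun k hk => this.2 (Fin.cast hl.symm k) ?_⟩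
    have := ent_code r col j k
    unfold rM
    rw [← hk, ← this]
    rfl
  · intro h
    refine ⟨⟨by rw [code_len1, code_len2], ?_⟩, ?_⟩
    · intro x hx
      rw [code_len1]
      unfold code at hx
      rw [List.mem_ofFn] at hx
      obtain ⟨i, rfl⟩ := hx
      simp
    · intro i j hij
      have e : ∀ i j : Fin (code r col).1.length, rM (code r col) i j =
          r (Fin.cast hl i) (Fin.cast hl j) := by
        intro i j
        rw [← ent_code r col]
        rfl
      rw [e] at hij
      obtain ⟨h1, h2⟩ := h _ _ hij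
      refine ⟨fun e' => h1 (by rw [e']), fun k => ?_⟩
      rw [e]
      exact h2 _

/-- the relation between positions -/
structure Rl (c : List (List Bool) × List Bool) (b : Ps) (a : Set (Fin c.1.length) × Bool) :
    Prop where
  m : (b.1, b.2.1) = c
  p : b.2.2.2.1 = a.2
  f : b.2.2.2.2 = []
  u : ∀ i : Fin c.1.length, i.val ∈ b.2.2.1 ↔ i ∈ a.1
  l : ∀ x ∈ b.2.2.1, x < c.1.length

theorem Rl.next {c : List (List Bool) × List Bool} {b : Ps} {a : Set (Fin c.1.length) × Bool}
    (h : Rl c b a) (x : Fin c.1.length) :
    Rl c (b.1, b.2.1, b.2.2.1.filter (fun y => !decide (y = x.val)), !b.2.2.2.1, [])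
      (a.1 \ {x}, !a.2) := by
  refine ⟨h.m, by simp [h.p], rfl, ?_, ?_⟩
  · intro i
    simp only [List.mem_filter, h.u i, Bool.not_eq_true', decide_eq_false_iff_not, Set.mem_diff,
      Set.mem_singleton_iff, Fin.ext_iff]
  · intro y hy
    exact h.l y (List.mem_filter.1 hy).1

theorem W_list {c : List (List Bool) × List Bool} {b : Ps} {a : Set (Fin c.1.length) × Bool}
    (h : Rl c b a) : W (mvL moves) b ↔ W (mvP (fun i j => rM c i j = true) (cM c)) a := by
  refine W_iff_bisim (Rl c) ?_ ?_ h
  · intro b a b' h hb'
    have hb2 : b' ∈ moves b := hb'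
    unfold moves at hb2
    rw [if_pos (by rw [h.f]; rfl), mem_gMoves] at hb2
    obtain ⟨x, hx, hc, hm, rfl⟩ := hb2
    have hm' := h.m
    have hlt := h.l x hx
    refine ⟨(a.1 \ {⟨x, hlt⟩}, !a.2), ⟨⟨x, hlt⟩, (h.u ⟨x, hlt⟩).1 hx, ?_, ?_, rfl⟩,
      h.next ⟨x, hlt⟩⟩
    · rw [← h.p, ← hc]
      subst hm'
      rfl
    · intro y hy hr
      refine hm y ((h.u y).2 hy) ?_
      subst hm'
      exact hr
  · rintro b a a' h ⟨x, hx, hc, hm, rfl⟩
    have hm' := h.m
    refine ⟨_, ?_, h.next x⟩
    change _ ∈ moves b
    unfold moves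
    rw [if_pos (by rw [h.f]; rfl), mem_gMoves]
    refine ⟨x.val, (h.u x).2 hx, ?_, ?_, rfl⟩
    · rw [h.p, ← hc]
      subst hm'
      rfl
    · intro y hy hr
      have hlt := h.l y hy
      refine hm ⟨y, hlt⟩ ((h.u _).1 hy) ?_
      subst hm'
      exact hr

theorem wf_moves : WellFounded fun b a : Ps => mvL moves a b := by
  refine Subrelation.wf (r := InvImage (· < ·) rank) ?_ (InvImage.wf rank wellFounded_lt)
  intro b a h
  obtain ⟨M, col, L, p, ph⟩ := a
  have h' : b ∈ moves (M, col, L, p, ph) := h
  unfold moves at h'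
  simp only at h'
  change rank b < rank (M, col, L, p, ph)
  split_ifs at h' with h1 h2
  · rw [mem_gMoves] at h'
    obtain ⟨x, hx, hc, hm, rfl⟩ := h'
    simp only at hx
    have e1 := length_filter_ne hx
    simp only [rank, List.length_nil]
    omega
  · rcases List.mem_cons.1 h' with rfl | h'
    · simp only [rank, List.length_tail]
      omega
    · rw [List.mem_singleton] at h'
      subst h'
      simp only [rank, List.length_tail]
      omega
  · rw [List.isEmpty_iff] at h1
    have := List.length_pos_iff.2 h1
    rw [List.mem_singleton] at h'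
    subst h'
    simp only [rank, List.length_tail]
    omega

theorem W_ph1 (M : List (List Bool)) (col : List Bool) (L : List ℕ) (p x : Bool) :
    W (mvL moves) (M, col, L, p, [x]) ↔ ¬ W (mvL moves) (M, col, L, p, []) := by
  rw [W_iff wf_moves]
  simp [mvL, moves]

theorem W_ph2 (M : List (List Bool)) (col : List Bool) (L : List ℕ) (p x y : Bool) :
    W (mvL moves) (M, col, L, p, [x, y]) ↔
      (W (mvL moves) (M, col, L, true, []) ∨ W (mvL moves) (M, col, L, false, [])) := by
  rw [W_iff wf_moves]
  simp only [mvL, moves]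
  simp [W_ph1]

theorem W_ph3 (M : List (List Bool)) (col : List Bool) (L : List ℕ) (p x y z : Bool) :
    W (mvL moves) (M, col, L, p, [x, y, z]) ↔
      (¬ W (mvL moves) (M, col, L, true, []) ∧ ¬ W (mvL moves) (M, col, L, false, [])) := by
  rw [W_iff wf_moves]
  simp only [mvL, moves]
  simp [W_ph2]

theorem W_list' (c : List (List Bool) × List Bool) (p : Bool) :
    W (mvL moves) (c.1, c.2, List.range c.1.length, p, []) ↔
      MoverWins (fun i j => rM c i j = true) (cM c) p Set.univ := by
  rw [moverWins_iff]
  refine W_list ⟨rfl, rfl, rfl, ?_, ?_⟩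
  · intro i
    simp
  · intro x hx
    simpa using hx

theorem whiteWins_valid (s : Bool) (c : List (List Bool) × List Bool) :
    WhiteWins s c ↔ valid c = true ∧
      W (mvL moves) (c.1, c.2, List.range c.1.length, s, if s = true then [] else [s]) := by
  constructor
  · rintro ⟨n, r, col, rfl, h, hW⟩
    have hv := valid_code (r := r) (col := col) |>.2 h
    refine ⟨hv, ?_⟩
    have key := code_inj' (code_rM hv).symm (fun n r col =>
      ((s = true ∧ MoverWins (fun x y => r x y = true) col true Set.univ) ∨
      (s = false ∧ ¬ MoverWins (fun x y => r x y = true) col false Set.univ))) hW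
    rcases key with ⟨rfl, hW'⟩ | ⟨rfl, hW'⟩
    · rw [if_pos rfl, W_list']
      exact hW'
    · rw [if_neg (by simp), W_ph1, W_list']
      exact hW'
  · rintro ⟨hv, hW⟩
    refine ⟨_, rM c, cM c, code_rM hv, ?_, ?_⟩
    · rw [← valid_code (col := cM c), code_rM hv]
      exact hv
    · cases s
      · rw [if_neg (by simp), W_ph1, W_list'] at hW
        exact Or.inr ⟨rfl, hW⟩
      · rw [if_pos rfl, W_list'] at hW
        exact Or.inl ⟨rfl, hW⟩

theorem isZero_valid (c : List (List Bool) × List Bool) :
    IsZero c ↔ valid c = true ∧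
      W (mvL moves) (c.1, c.2, List.range c.1.length, true, [true, true, true]) := by
  constructor
  · rintro ⟨n, r, col, rfl, h, hW⟩
    have hv := valid_code (r := r) (col := col) |>.2 h
    refine ⟨hv, ?_⟩
    have key := code_inj' (code_rM hv).symm (fun n r col =>
      (¬ MoverWins (fun x y => r x y = true) col true Set.univ ∧
      ¬ MoverWins (fun x y => r x y = true) col false Set.univ)) hW
    rw [W_ph3, W_list', W_list']
    exact key
  · rintro ⟨hv, hW⟩
    refine ⟨_, rM c, cM c, code_rM hv, ?_, ?_⟩
    · rw [← valid_code (col := cM c), code_rM hv]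
      exact hv
    · rw [W_ph3, W_list', W_list'] at hW
      exact hW

/-- the initial position -/
def pInit (p : Bool) (ph : List Bool) (x : List Bool) : Ps :=
  (((unbits (List (List Bool) × List Bool) x).getD ([[true]], [])).1,
    ((unbits (List (List Bool) × List Bool) x).getD ([[true]], [])).2,
    List.range ((unbits (List (List Bool) × List Bool) x).getD ([[true]], [])).1.length, p, ph)

theorem mem_general {P : List (List Bool) × List Bool → Prop} (p : Bool) (ph : List Bool)
    (hph : ph.length ≤ 3)
    (hP : ∀ c, P c ↔ valid c = true ∧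
      W (mvL moves) (c.1, c.2, List.range c.1.length, p, ph)) : InPSPACE (lang P) := by
  have hdec : NPC.Poly (fun x : List Bool =>
      (unbits (List (List Bool) × List Bool) x).getD ([[true]], [])) :=
    NPC.Poly.optGetD poly_unbits (NPC.Poly.const ([[true]], []))
  have hlen : UPoly (fun x : List Bool =>
      ((unbits (List (List Bool) × List Bool) x).getD ([[true]], [])).1.length) :=
    UPoly.length (NPC.Poly.fst hdec)
  have hinit : NPC.Poly (pInit p ph) :=
    NPC.Poly.pair (NPC.Poly.fst hdec) (NPC.Poly.pair (NPC.Poly.snd hdec)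
      (NPC.Poly.pair hlen.range (NPC.Poly.const ((p, ph) : Bool × List Bool))))
  refine inPSPACE_of_game hinit (good := fun b => valid (b.1, b.2.1))
    (poly_valid.comp (f := fun b : Ps => (b.1, b.2.1)) (by fun_prop)) poly_moves sz_moves
    (w := fun x => ((unbits (List (List Bool) × List Bool) x).getD ([[true]], [])).1.length + 4) ?_
    (fun x b => b.2.2.1.length ≤
      ((unbits (List (List Bool) × List Bool) x).getD ([[true]], [])).1.length ∧
      b.2.2.2.2.length ≤ 3)
    rank ?_ ?_ ?_ ?_
  · exact hlen.add (UPoly.const 4)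
  · intro x
    simp [pInit, hph]
  · intro x b hb b' hb'
    exact rank_moves b _ hb b' hb'
  · intro x b hb
    refine ⟨(length_moves b _ hb).trans (by omega), ?_⟩
    unfold rank
    omega
  · intro x
    rw [mem_lang_iff]
    unfold pInit
    simp only
    constructor
    · rintro ⟨M, hM, h⟩
      rw [hM, Option.getD_some]
      exact (hP M).1 h
    · intro h
      cases hx : unbits (List (List Bool) × List Bool) x with
      | none =>
        rw [hx, Option.getD_none] at h
        exact absurd h.1 (by decide)
      | some M =>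
        rw [hx, Option.getD_some] at h
        exact ⟨M, rfl, (hP M).2 h⟩

theorem whiteWins_mem (s : Bool) : InPSPACE (lang (WhiteWins s)) :=
  mem_general s (if s = true then [] else [s]) (by cases s <;> simp) (whiteWins_valid s)

theorem isZero_mem : InPSPACE (lang IsZero) :=
  mem_general true [true, true, true] (by simp) isZero_valid

end Pool.Agent.Q227.PX
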