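import Pool.Agent.Q227.PX.Str
import Pool.Agent.Q227.PX.Mem
import Pool.Agent.H656R2.AK.MatPoly

/-!
# The reduction
-/

namespace Pool.Agent.Q227.PX

open Pool.Agent.NPC Pool.Agent.H623R2.PS Pool.Agent.H656R2.AK

set_option linter.unusedSectionVars false

/-- the elements: tops `(0, a)` and bottoms `(1, i)` -/
def vl (Q : QF) : List (ℕ × ℕ) :=
  ((List.range (2 * mm Q)).map fun a => (0, a)) ++ (List.range (BQ Q).length).map fun i => (1, i)

/-- the order -/
def lt (Q : QF) (x y : ℕ × ℕ) : Bool :=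
  decide (x.1 = 1) && (decide (y.1 = 0) && decide (y.2 ∈ ((BQ Q).getD x.2 (false, [])).2))

/-- the colours -/
def cl (Q : QF) (x : ℕ × ℕ) : Bool :=
  if x.1 = 0 then own (x.2 / 2) else ((BQ Q).getD x.2 (false, [])).1

/-- the instance -/
def iQ (Q : QF) : List (List Bool) × List Bool :=
  ((vl Q).map fun x => (vl Q).map fun y => lt Q x y, (vl Q).map (cl Q))

/-- the order on the indices -/
def rF (Q : QF) (i j : Fin (vl Q).length) : Bool := lt Q (vl Q)[i] (vl Q)[j]

/-- the colours of the indices -/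
def cF (Q : QF) (i : Fin (vl Q).length) : Bool := cl Q (vl Q)[i]

theorem code_F (Q : QF) : code (rF Q) (cF Q) = iQ Q := by
  unfold code iQ
  refine Prod.ext ?_ ?_
  · simp only
    refine List.ext_getElem (by simp) fun i hi hi' => ?_
    rw [List.getElem_ofFn, List.getElem_map]
    refine List.ext_getElem (by simp) fun j hj hj' => ?_
    rw [List.getElem_ofFn, List.getElem_map]
    rfl
  · simp only
    refine List.ext_getElem (by simp) fun i hi hi' => ?_
    rw [List.getElem_ofFn, List.getElem_map]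
    rfl

theorem mem_vl {Q : QF} {x : ℕ × ℕ} :
    x ∈ vl Q ↔ (x.1 = 0 ∧ x.2 < 2 * mm Q) ∨ (x.1 = 1 ∧ x.2 < (BQ Q).length) := by
  obtain ⟨t, a⟩ := x
  unfold vl
  simp only [List.mem_append, List.mem_map, List.mem_range, Prod.mk.injEq]
  constructor
  · rintro (⟨b, hb, rfl, rfl⟩ | ⟨b, hb, rfl, rfl⟩)
    · exact Or.inl ⟨rfl, hb⟩
    · exact Or.inr ⟨rfl, hb⟩
  · rintro (⟨rfl, h⟩ | ⟨rfl, h⟩)
    · exact Or.inl ⟨a, h, rfl, rfl⟩
    · exact Or.inr ⟨a, h, rfl, rfl⟩

theorem nodup_vl (Q : QF) : (vl Q).Nodup := by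
  unfold vl
  rw [List.nodup_append]
  refine ⟨?_, ?_, ?_⟩
  · exact List.nodup_range.map fun a b h => (Prod.mk.inj h).2
  · exact List.nodup_range.map fun a b h => (Prod.mk.inj h).2
  · intro a ha b hb e
    obtain ⟨_, _, rfl⟩ := List.mem_map.1 ha
    obtain ⟨_, _, rfl⟩ := List.mem_map.1 hb
    simp at e

theorem lt_prop {Q : QF} {x y : ℕ × ℕ} : lt Q x y = true ↔
    x.1 = 1 ∧ y.1 = 0 ∧ y.2 ∈ ((BQ Q).getD x.2 (false, [])).2 := by
  unfold lt
  simp only [Bool.and_eq_true, decide_eq_true_eq]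

theorem heightTwo_F (Q : QF) : HeightTwo (rF Q) := by
  rw [heightTwo_iff]
  intro i j h
  unfold rF at h
  rw [lt_prop] at h
  refine ⟨?_, fun k hk => ?_⟩
  · rintro rfl
    omega
  · unfold rF at hk
    rw [lt_prop] at hk
    omega

theorem tops_lt {Q : QF} (hQ : QFwf Q) : ∀ b ∈ BQ Q, ∀ a ∈ b.2, a < 2 * mm Q := by
  intro b hb a ha
  unfold BQ at hb
  rcases List.mem_append.1 hb with hb | hb
  · unfold CL at hb
    obtain ⟨j, hj, hb⟩ := List.mem_flatMap.1 hb
    rw [List.mem_range] at hj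
    unfold blk at hb
    simp only [List.mem_append, List.mem_replicate] at hb
    rcases hb with ⟨-, rfl⟩ | ⟨-, rfl⟩ | ⟨-, rfl⟩ | ⟨-, rfl⟩ | ⟨-, rfl⟩ | ⟨-, rfl⟩ <;>
      simp only [List.mem_cons, List.not_mem_nil, or_false] at ha <;> omega
  · rcases List.mem_append.1 hb with hb | hb
    · unfold TT at hb
      obtain ⟨c, hc, rfl⟩ := List.mem_map.1 hb
      obtain ⟨l, hl, rfl⟩ := List.mem_map.1 ha
      have h1 := hQ c hc l hl
      have h2 := Bool.toNat_le (!Q.1.getD l.2 false)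
      have h3 := Bool.toNat_le (!l.1)
      unfold gg mm
      omega
    · unfold KK at hb
      obtain ⟨j, hj, hb⟩ := List.mem_flatMap.1 hb
      rw [List.mem_range] at hj
      rw [List.mem_replicate] at hb
      obtain ⟨-, rfl⟩ := hb
      simp only [List.mem_cons, List.not_mem_nil, or_false] at ha
      omega

/-- the bisimulation -/
structure Bs (Q : QF) (a : Set (Fin (vl Q).length) × Bool) (b : St) : Prop where
  p : a.2 = b.2.2
  s0 : ∀ i, (vl Q)[i].1 = 0 → (i ∈ a.1 ↔ (vl Q)[i].2 ∉ b.1)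
  s1 : ∀ i, (vl Q)[i].1 = 1 → (i ∈ a.1 ↔ (vl Q)[i].2 ∉ b.2.1)

theorem lab_lt (Q : QF) (i : Fin (vl Q).length) :
    ((vl Q)[i].1 = 0 ∧ (vl Q)[i].2 < 2 * mm Q) ∨
      ((vl Q)[i].1 = 1 ∧ (vl Q)[i].2 < (BQ Q).length) :=
  mem_vl.1 (List.getElem_mem i.isLt)

theorem lab_inj {Q : QF} {i j : Fin (vl Q).length} (h1 : (vl Q)[i].1 = (vl Q)[j].1)
    (h2 : (vl Q)[i].2 = (vl Q)[j].2) : i = j :=
  Fin.ext ((List.Nodup.getElem_inj_iff (nodup_vl Q)).1 (Prod.ext h1 h2))

theorem exists_lab {Q : QF} {x : ℕ × ℕ} (h : x ∈ vl Q) : ∃ i : Fin (vl Q).length, (vl Q)[i] = x := by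
  obtain ⟨i, hi, h⟩ := List.getElem_of_mem h
  exact ⟨⟨i, hi⟩, h⟩

theorem Bs.top {Q : QF} {a : Set (Fin (vl Q).length) × Bool} {D U : Finset ℕ} {p : Bool}
    (h : Bs Q a (D, U, p)) {i : Fin (vl Q).length} (hi : (vl Q)[i].1 = 0) :
    Bs Q (a.1 \ {i}, !a.2) (insert (vl Q)[i].2 D, U, !p) := by
  refine ⟨by simp [h.p], ?_, ?_⟩
  · intro j hj
    simp only [Set.mem_diff, Set.mem_singleton_iff, h.s0 j hj, Finset.mem_insert, not_or]
    refine ⟨fun hh => ⟨fun e => hh.2 (lab_inj (by rw [hi, hj]) e), hh.1⟩,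
      fun hh => ⟨hh.2, fun e => hh.1 (by rw [e])⟩⟩
  · intro j hj
    simp only [Set.mem_diff, Set.mem_singleton_iff, h.s1 j hj]
    refine ⟨fun hh => hh.1, fun hh => ⟨hh, fun e => ?_⟩⟩
    rw [e, hi] at hj
    omega

theorem Bs.bot {Q : QF} {a : Set (Fin (vl Q).length) × Bool} {D U : Finset ℕ} {p : Bool}
    (h : Bs Q a (D, U, p)) {i : Fin (vl Q).length} (hi : (vl Q)[i].1 = 1) :
    Bs Q (a.1 \ {i}, !a.2) (D, insert (vl Q)[i].2 U, !p) := by
  refine ⟨by simp [h.p], ?_, ?_⟩
  · intro j hj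
    simp only [Set.mem_diff, Set.mem_singleton_iff, h.s0 j hj]
    refine ⟨fun hh => hh.1, fun hh => ⟨hh, fun e => ?_⟩⟩
    rw [e, hi] at hj
    omega
  · intro j hj
    simp only [Set.mem_diff, Set.mem_singleton_iff, h.s1 j hj, Finset.mem_insert, not_or]
    refine ⟨fun hh => ⟨fun e => hh.2 (lab_inj (by rw [hi, hj]) e), hh.1⟩,
      fun hh => ⟨hh.2, fun e => hh.1 (by rw [e])⟩⟩

theorem rel_iff {Q : QF} {D : Finset ℕ} {k : ℕ} :
    rel (BQ Q) D k = true ↔ ∀ a ∈ ((BQ Q).getD k (false, [])).2, a ∈ D := by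
  unfold rel
  rw [List.all_eq_true]
  simp

theorem W_F {Q : QF} (hQ : QFwf Q) (p : Bool) :
    MoverWins (fun i j => rF Q i j = true) (cF Q) p Set.univ ↔
      W (Mv (mm Q) (BQ Q)) (∅, ∅, p) := by
  rw [moverWins_iff]
  refine W_iff_bisim (Bs Q) ?_ ?_ ⟨rfl, by simp, by simp⟩
  · rintro a ⟨D, U, p⟩ a' h ⟨x, hx, hc, hm, rfl⟩
    rcases lab_lt Q x with ⟨h1, h2⟩ | ⟨h1, h2⟩
    · refine ⟨_, Mv.top _ h2 ((h.s0 x h1).1 hx) ?_, h.top h1⟩
      rw [h.p] at hc
      unfold cF cl at hc
      rw [if_pos h1] at hc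
      exact hc
    · refine ⟨_, Mv.bot _ h2 ((h.s1 x h1).1 hx) ?_ ?_, h.bot h1⟩
      · rw [h.p] at hc
        unfold cF cl at hc
        rw [if_neg (by omega)] at hc
        exact hc
      · rw [rel_iff]
        intro b hb
        by_contra hD
        have hmem : (BQ Q).getD (vl Q)[x].2 (false, []) ∈ BQ Q := by
          rw [List.getD_eq_getElem _ _ h2]
          exact List.getElem_mem _
        have hb2 := tops_lt hQ _ hmem b hb
        obtain ⟨y, hy⟩ := exists_lab (Q := Q) (x := (0, b)) (mem_vl.2 (Or.inl ⟨rfl, hb2⟩))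
        refine hm y ?_ ?_
        · rw [h.s0 y (by rw [hy])]
          rw [hy]
          exact hD
        · change lt Q (vl Q)[x] (vl Q)[y] = true
          rw [lt_prop, hy]
          exact ⟨h1, rfl, hb⟩
  · rintro ⟨S, q⟩ b b' h hb
    have hp : q = b.2.2 := h.p
    subst hp
    cases hb with
    | @top D U p t ht hD ho =>
      obtain ⟨x, hx⟩ := exists_lab (Q := Q) (x := (0, t)) (mem_vl.2 (Or.inl ⟨rfl, ht⟩))
      have h1 : (vl Q)[x].1 = 0 := by rw [hx]
      have h2 : (vl Q)[x].2 = t := by rw [hx]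
      refine ⟨_, ⟨x, ?_, ?_, ?_, rfl⟩, ?_⟩
      · rw [h.s0 x h1, h2]
        exact hD
      · unfold cF cl
        rw [if_pos h1, h2]
        exact ho
      · intro y _ hr
        unfold rF at hr
        rw [lt_prop] at hr
        omega
      · rw [← h2]
        exact h.top h1
    | @bot D U p i hi hU hc hr =>
      obtain ⟨x, hx⟩ := exists_lab (Q := Q) (x := (1, i)) (mem_vl.2 (Or.inr ⟨rfl, hi⟩))
      have h1 : (vl Q)[x].1 = 1 := by rw [hx]
      have h2 : (vl Q)[x].2 = i := by rw [hx]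
      refine ⟨_, ⟨x, ?_, ?_, ?_, rfl⟩, ?_⟩
      · rw [h.s1 x h1, h2]
        exact hU
      · unfold cF cl
        rw [if_neg (by omega), h2]
        exact hc
      · intro y hy hr'
        unfold rF at hr'
        rw [lt_prop, h2] at hr'
        rw [h.s0 y hr'.2.1] at hy
        exact hy (rel_iff.1 hr _ hr'.2.2)
      · rw [← h2]
        exact h.bot h1

theorem moverWins_black {Q : QF} (hQ : QFwf Q) :
    ¬ MoverWins (fun i j => rF Q i j = true) (cF Q) false Set.univ ↔
      evq Q.1 (fun w => evc w Q.2) = true := by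
  rw [W_F hQ, black_first hQ]

theorem moverWins_white {Q : QF} (hQ : QFwf Q) :
    ¬ MoverWins (fun i j => rF Q i j = true) (cF Q) true Set.univ := by
  rw [W_F hQ]
  exact white_first Q

theorem isZero_iQ {Q : QF} (hQ : QFwf Q) :
    IsZero (iQ Q) ↔ evq Q.1 (fun w => evc w Q.2) = true := by
  rw [← moverWins_black hQ]
  constructor
  · rintro ⟨n, r, col, hc, h, hW⟩
    rw [← code_F] at hc
    exact (code_inj' hc (fun n r col =>
      (¬ MoverWins (fun x y => r x y = true) col true Set.univ ∧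
      ¬ MoverWins (fun x y => r x y = true) col false Set.univ)) hW).2
  · intro h
    exact ⟨_, rF Q, cF Q, code_F Q, heightTwo_F Q, moverWins_white hQ, h⟩

theorem whiteWins_iQ {Q : QF} (hQ : QFwf Q) :
    WhiteWins false (iQ Q) ↔ evq Q.1 (fun w => evc w Q.2) = true := by
  rw [← moverWins_black hQ]
  constructor
  · rintro ⟨n, r, col, hc, h, hW⟩
    rw [← code_F] at hc
    have := code_inj' hc (fun n r col =>
      ((false = true ∧ MoverWins (fun x y => r x y = true) col true Set.univ) ∨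
      (false = false ∧ ¬ MoverWins (fun x y => r x y = true) col false Set.univ))) hW
    simpa using this
  · intro h
    exact ⟨_, rF Q, cF Q, code_F Q, heightTwo_F Q, Or.inr ⟨rfl, h⟩⟩

/-! ### Exchanging the colours -/

theorem moverWins_swap {V : Type*} {r : V → V → Prop} {col : V → Bool} {p : Bool} {S : Set V}
    (h : MoverWins r col p S) : MoverWins r (fun x => !col x) (!p) S := by
  induction h with
  | @mk S x hx hc hm h ih =>
    refine MoverWins.mk x hx (by rw [hc]) hm fun y hy hyc hym => ih y hy ?_ hym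
    rw [Bool.not_not] at hyc
    rw [← hyc, Bool.not_not]

theorem moverWins_swap_iff {V : Type*} {r : V → V → Prop} {col : V → Bool} {p : Bool}
    {S : Set V} : MoverWins r (fun x => !col x) (!p) S ↔ MoverWins r col p S := by
  refine ⟨fun h => ?_, moverWins_swap⟩
  have := moverWins_swap h
  simpa using this

/-- the instance with exchanged colours -/
def jQ (Q : QF) : List (List Bool) × List Bool := ((iQ Q).1, (iQ Q).2.map not)

theorem code_F' (Q : QF) : code (rF Q) (fun i => !cF Q i) = jQ Q := by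
  unfold jQ
  rw [← code_F]
  unfold code
  simp only [List.map_ofFn]
  rfl

theorem whiteWins_jQ {Q : QF} (hQ : QFwf Q) :
    WhiteWins true (jQ Q) ↔ ¬ evq Q.1 (fun w => evc w Q.2) = true := by
  rw [← moverWins_black hQ, not_not]
  have hs : MoverWins (fun i j => rF Q i j = true) (fun i => !cF Q i) true Set.univ ↔
      MoverWins (fun i j => rF Q i j = true) (cF Q) false Set.univ :=
    moverWins_swap_iff (p := false)
  rw [← hs]
  constructor
  · rintro ⟨n, r, col, hc, h, hW⟩
    rw [← code_F'] at hc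
    have := code_inj' hc (fun n r col =>
      ((true = true ∧ MoverWins (fun x y => r x y = true) col true Set.univ) ∨
      (true = false ∧ ¬ MoverWins (fun x y => r x y = true) col false Set.univ))) hW
    simpa using this
  · intro h
    exact ⟨_, rF Q, fun i => !cF Q i, code_F' Q, heightTwo_F Q, Or.inl ⟨rfl, h⟩⟩

/-! ### Polynomial time -/

section

variable {α β : Type} [TEnc α] [TEnc β]

theorem poly_rep {w : α → ℕ} {b : α → β} (hw : UPoly w) (hb : Poly b) :
    Poly (fun a => List.replicate (w a) (b a)) := by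
  refine (NPC.Poly.map (l := fun a => List.range (w a)) (F := fun a _ => b a) hw.range
    (hb.comp (Poly.fst Poly.id))).congr fun a => ?_
  rw [List.map_const', List.length_range]

end

theorem upoly_mm : UPoly mm := by
  unfold mm
  exact (UPoly.const 2).mul (UPoly.length (l := fun Q : QF => Q.1) (by fun_prop))

theorem upoly_cC : UPoly cC := by
  unfold cC
  exact ((UPoly.length (l := fun Q : QF => Q.2) (by fun_prop)).add
    ((UPoly.const 2).mul upoly_mm)).add (UPoly.const 1)

theorem upoly_mm1 : UPoly (fun Q : QF => mm Q - 1) := by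
  have h := upoly_mm.toPoly
  refine UPoly.of_le ?_ upoly_mm (fun Q => Nat.sub_le _ _)
  fun_prop

theorem poly_own {α : Type} [TEnc α] {f : α → ℕ} (hf : Poly f) : Poly (fun a => own (f a)) := by
  unfold own
  fun_prop

attribute [fun_prop] poly_own

theorem poly_CL : Poly (fun Q : QF => CL (cC Q) (mm Q - 1)) := by
  unfold CL
  refine NPC.Poly.flatMap (l := fun Q : QF => List.range (mm Q - 1)) (F := fun Q j => blk (cC Q) j)
    upoly_mm1.range ?_
  have hw : UPoly (fun p : QF × ℕ => cC p.1) := upoly_cC.comp (by fun_prop)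
  unfold blk
  have h1 : Poly (fun p : QF × ℕ => ((!own (p.2 + 1), [2 * (p.2 + 1)]) : Bool × List ℕ)) := by
    fun_prop
  have h2 : Poly (fun p : QF × ℕ => ((!own (p.2 + 1), [2 * (p.2 + 1) + 1]) : Bool × List ℕ)) := by
    fun_prop
  have h3 : Poly (fun p : QF × ℕ =>
      ((own (p.2 + 1), [2 * p.2, 2 * (p.2 + 1)]) : Bool × List ℕ)) := by
    fun_prop
  have h4 : Poly (fun p : QF × ℕ =>
      ((own (p.2 + 1), [2 * p.2, 2 * (p.2 + 1) + 1]) : Bool × List ℕ)) := by
    fun_prop
  have h5 : Poly (fun p : QF × ℕ =>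
      ((own (p.2 + 1), [2 * p.2 + 1, 2 * (p.2 + 1)]) : Bool × List ℕ)) := by
    fun_prop
  have h6 : Poly (fun p : QF × ℕ =>
      ((own (p.2 + 1), [2 * p.2 + 1, 2 * (p.2 + 1) + 1]) : Bool × List ℕ)) := by
    fun_prop
  exact (poly_rep hw h1).append ((poly_rep hw h2).append ((poly_rep hw h3).append
    ((poly_rep hw h4).append ((poly_rep hw h5).append (poly_rep hw h6)))))

theorem poly_TT : Poly TT := by
  unfold TT
  refine NPC.Poly.map (l := fun Q : QF => Q.2)
    (F := fun Q c => ((false, c.map fun l => 2 * gg Q l.2 + (!l.1).toNat) : Bool × List ℕ))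
    (by fun_prop) ?_
  refine NPC.Poly.pair (by fun_prop) ?_
  refine NPC.Poly.map (l := fun p : QF × List (Bool × ℕ) => p.2)
    (F := fun p l => 2 * gg p.1 l.2 + (!l.1).toNat) (by fun_prop) ?_
  unfold gg
  have h1 : Poly (fun b : Bool => (!b).toNat) := by
    have : Poly (fun b : Bool => if b = true then (0 : ℕ) else 1) := by fun_prop
    exact this.congr fun b => by cases b <;> rfl
  have h2 : Poly (fun p : (QF × List (Bool × ℕ)) × (Bool × ℕ) => (!p.2.1).toNat) :=
    h1.comp (f := fun p : (QF × List (Bool × ℕ)) × (Bool × ℕ) => p.2.1) (by fun_prop)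
  have h3 : Poly (fun p : (QF × List (Bool × ℕ)) × (Bool × ℕ) =>
      (!p.1.1.1.getD p.2.2 false).toNat) :=
    h1.comp (f := fun p : (QF × List (Bool × ℕ)) × (Bool × ℕ) => p.1.1.1.getD p.2.2 false)
      (by fun_prop)
  fun_prop

theorem poly_BQ : Poly BQ := by
  unfold BQ
  refine poly_CL.append (poly_TT.append ?_)
  unfold KK
  refine NPC.Poly.flatMap (l := fun Q : QF => List.range (mm Q))
    (F := fun Q j => List.replicate (cK Q) (!own j, [2 * j, 2 * j + 1])) upoly_mm.range ?_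
  have hK : UPoly cK := by
    unfold cK
    exact (((UPoly.length poly_CL).add (UPoly.length (l := fun Q : QF => Q.2)
      (by fun_prop))).add ((UPoly.const 2).mul upoly_mm)).add (UPoly.const 1)
  have hw : UPoly (fun p : QF × ℕ => cK p.1) := hK.comp (by fun_prop)
  have h1 : Poly (fun p : QF × ℕ => ((!own p.2, [2 * p.2, 2 * p.2 + 1]) : Bool × List ℕ)) := by
    fun_prop
  exact poly_rep hw h1

attribute [local irreducible] BQ mm

theorem poly_vl : Poly vl := by
  unfold vl
  have h1 : UPoly (fun Q : QF => (BQ Q).length) := UPoly.length poly_BQ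
  have h2 : UPoly (fun Q : QF => 2 * mm Q) := (UPoly.const 2).mul upoly_mm
  have h3 := h1.range
  have h4 := h2.range
  refine Poly.append ?_ ?_
  · exact NPC.Poly.map (l := fun Q : QF => List.range (2 * mm Q))
      (F := fun _ a => ((0, a) : ℕ × ℕ)) h4 (by fun_prop)
  · exact NPC.Poly.map (l := fun Q : QF => List.range (BQ Q).length)
      (F := fun _ i => ((1, i) : ℕ × ℕ)) h3 (by fun_prop)

theorem poly_lt : Poly (fun p : (QF × (ℕ × ℕ)) × (ℕ × ℕ) => lt p.1.1 p.1.2 p.2) := by
  unfold lt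
  have h1 : Poly (fun p : (QF × (ℕ × ℕ)) × (ℕ × ℕ) => BQ p.1.1) := poly_BQ.comp (by fun_prop)
  fun_prop

theorem poly_cl : Poly (fun p : QF × (ℕ × ℕ) => cl p.1 p.2) := by
  unfold cl
  have h1 : Poly (fun p : QF × (ℕ × ℕ) => BQ p.1) := poly_BQ.comp (by fun_prop)
  fun_prop

theorem poly_iQ : Poly iQ := by
  unfold iQ
  have hv := poly_vl
  refine NPC.Poly.pair ?_ ?_
  · refine NPC.Poly.map (l := vl) (F := fun Q x => (vl Q).map fun y => lt Q x y) hv ?_
    exact NPC.Poly.map (l := fun p : QF × (ℕ × ℕ) => vl p.1) (F := fun p y => lt p.1 p.2 y)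
      (hv.comp (Poly.fst Poly.id)) poly_lt
  · exact NPC.Poly.map (l := vl) (F := fun Q x => cl Q x) hv poly_cl

theorem poly_jQ : Poly jQ := by
  unfold jQ
  have h := poly_iQ
  refine NPC.Poly.pair (Poly.fst h) ?_
  exact NPC.Poly.map (l := fun Q => (iQ Q).2) (F := fun _ b => !b) (Poly.snd h) (by fun_prop)

/-! ### Hardness -/

theorem inPSPACE_compl {L : Set (List Bool)} (hL : InPSPACE L) : InPSPACE Lᶜ := by
  obtain ⟨f, hf, hwf, hf'⟩ := qbf_hard hL
  refine inPSPACE_of_evq (init := f) hf (qs := fun x => (f x).1.map not) ?_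
    (φ := fun Q u => !evc u Q.2) ?_ ?_
  · exact NPC.Poly.map (l := fun x => (f x).1) (F := fun _ b => !b) (Poly.fst hf) (by fun_prop)
  · have h : Poly (fun p : QF × List Bool => evc p.2 p.1.2) := by
      unfold evc
      refine NPC.Poly.all (l := fun p : QF × List Bool => p.1.2)
        (p := fun p c => c.any fun l => p.2.getD l.2 false == l.1) (by fun_prop) ?_
      have h0 : Poly (fun p : ((QF × List Bool) × List (Bool × ℕ)) × (Bool × ℕ) =>
          decide (p.1.1.2.getD p.2.2 false = p.2.1)) := by fun_prop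
      exact NPC.Poly.any (l := fun p : (QF × List Bool) × List (Bool × ℕ) => p.2)
        (p := fun p l => p.1.2.getD l.2 false == l.1) (by fun_prop)
        (h0.congr fun p => by rw [Bool.beq_eq_decide_eq])
    exact NPC.Poly.not h
  · intro x
    rw [Set.mem_compl_iff, hf' x, evq_not]
    simp

theorem isZero_hard : PSPACEHard (lang IsZero) := by
  intro L hL
  obtain ⟨f, hf, hwf, hf'⟩ := qbf_hard hL
  exact ⟨fun x => bits (iQ (f x)), polyTime_bits (poly_iQ.comp hf), fun x => by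
    rw [hf' x, bits_mem_lang, isZero_iQ (hwf x)]⟩

theorem whiteWins_hard (s : Bool) : PSPACEHard (lang (WhiteWins s)) := by
  intro L hL
  cases s
  · obtain ⟨f, hf, hwf, hf'⟩ := qbf_hard hL
    exact ⟨fun x => bits (iQ (f x)), polyTime_bits (poly_iQ.comp hf), fun x => by
      rw [hf' x, bits_mem_lang, whiteWins_iQ (hwf x)]⟩
  · obtain ⟨f, hf, hwf, hf'⟩ := qbf_hard (inPSPACE_compl hL)
    exact ⟨fun x => bits (jQ (f x)), polyTime_bits (poly_jQ.comp hf), fun x => by
      rw [bits_mem_lang, whiteWins_jQ (hwf x), ← hf' x, Set.mem_compl_iff, not_not]⟩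

theorem isZero_complete : PSPACEComplete (lang IsZero) := ⟨isZero_mem, isZero_hard⟩

theorem whiteWins_complete (s : Bool) : PSPACEComplete (lang (WhiteWins s)) :=
  ⟨whiteWins_mem s, whiteWins_hard s⟩

end Pool.Agent.Q227.PX
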