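import Pool.Agent.H656R2.AK.Game

/-!
# The abstract game: definitions and counting
-/

namespace Pool.Agent.Q227.PX

open Pool.Agent.H656R2.AK

/-- positions: deleted tops, deleted bottoms, player -/
abbrev St := Finset ℕ × Finset ℕ × Bool

/-- the owner of a group -/
def own (j : ℕ) : Bool := decide (j % 2 = 1)

theorem own_succ (j : ℕ) : own (j + 1) = !own j := by
  unfold own
  rw [← decide_not]
  exact decide_eq_decide.2 (by omega)

/-- a bottom is released -/
def rel (BL : List (Bool × List ℕ)) (D : Finset ℕ) (i : ℕ) : Bool :=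
  (BL.getD i (false, [])).2.all fun a => decide (a ∈ D)

/-- the moves -/
inductive Mv (m : ℕ) (BL : List (Bool × List ℕ)) : St → St → Prop
  | top {D U : Finset ℕ} {p : Bool} (a : ℕ) (ha : a < 2 * m) (hD : a ∉ D) (ho : own (a / 2) = p) :
      Mv m BL (D, U, p) (insert a D, U, !p)
  | bot {D U : Finset ℕ} {p : Bool} (i : ℕ) (hi : i < BL.length) (hU : i ∉ U)
      (hc : (BL.getD i (false, [])).1 = p) (hr : rel BL D i = true) :
      Mv m BL (D, U, p) (D, insert i U, !p)

theorem wf_Mv (m : ℕ) (BL : List (Bool × List ℕ)) : WellFounded fun b a => Mv m BL a b := by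
  refine Subrelation.wf (r := InvImage (· < ·) fun st : St =>
    (Finset.range (2 * m) \ st.1).card + (Finset.range BL.length \ st.2.1).card) ?_
    (InvImage.wf _ wellFounded_lt)
  intro b a h
  change (Finset.range (2 * m) \ b.1).card + (Finset.range BL.length \ b.2.1).card <
    (Finset.range (2 * m) \ a.1).card + (Finset.range BL.length \ a.2.1).card
  have key : ∀ (n x : ℕ) (D : Finset ℕ), x < n → x ∉ D →
      (Finset.range n \ insert x D).card < (Finset.range n \ D).card := by
    intro n x D h1 h2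
    refine Finset.card_lt_card ?_
    rw [Finset.ssubset_iff_of_subset (Finset.sdiff_subset_sdiff le_rfl (Finset.subset_insert _ _))]
    exact ⟨x, by simp [h1, h2], by simp⟩
  cases h with
  | top x ha hD ho =>
    have := key (2 * m) x _ ha hD
    simp only
    omega
  | bot i hi hU hc hr =>
    have := key BL.length i _ hi hU
    simp only
    omega

/-! ### Counting -/

/-- the number of released bottoms of a colour -/
def R (l : List (Bool × List ℕ)) (c : Bool) (D : Finset ℕ) : ℕ :=
  l.countP fun b => decide (b.1 = c) && b.2.all fun a => decide (a ∈ D)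

theorem R_append (l l' : List (Bool × List ℕ)) (c : Bool) (D : Finset ℕ) :
    R (l ++ l') c D = R l c D + R l' c D := List.countP_append

theorem R_replicate (k : ℕ) (b : Bool × List ℕ) (c : Bool) (D : Finset ℕ) :
    R (List.replicate k b) c D = if b.1 = c ∧ ∀ a ∈ b.2, a ∈ D then k else 0 := by
  unfold R
  rw [List.countP_replicate]
  congr 1
  simp

theorem R_le (l : List (Bool × List ℕ)) (c : Bool) (D : Finset ℕ) : R l c D ≤ l.length :=
  List.countP_le_length

/-- the number of used bottoms of a colour -/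
def us (BL : List (Bool × List ℕ)) (c : Bool) (U : Finset ℕ) : ℕ :=
  (U.filter fun i => (BL.getD i (false, [])).1 = c).card

theorem card_range_filter {α : Type} (P : α → Bool) (d : α) (l : List α) :
    ((Finset.range l.length).filter fun i => P (l.getD i d) = true).card = l.countP P := by
  induction l using List.reverseRecOn with
  | nil => simp
  | append_singleton l x ih =>
    have hd : ∀ i, i < l.length → (l ++ [x]).getD i d = l.getD i d := by
      intro i hi
      rw [List.getD_append _ _ _ _ hi]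
    have hx : (l ++ [x]).getD l.length d = x := by
      rw [List.getD_append_right _ _ _ _ le_rfl]
      simp
    rw [List.length_append, List.length_singleton, Finset.range_add_one, Finset.filter_insert, hx,
      List.countP_append, ← ih]
    have e : (Finset.range l.length).filter (fun i => P ((l ++ [x]).getD i d) = true) =
        (Finset.range l.length).filter fun i => P (l.getD i d) = true := by
      refine Finset.filter_congr fun i hi => ?_
      rw [hd i (Finset.mem_range.1 hi)]
    rw [e]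
    by_cases h : P x = true
    · rw [if_pos h, Finset.card_insert_of_notMem (by simp)]
      simp [h]
    · rw [if_neg h]
      simp [h]

theorem R_card (BL : List (Bool × List ℕ)) (c : Bool) (D : Finset ℕ) : R BL c D =
    ((Finset.range BL.length).filter fun i =>
      (BL.getD i (false, [])).1 = c ∧ rel BL D i = true).card := by
  unfold R
  rw [← card_range_filter _ (false, [])]
  congr 1
  refine Finset.filter_congr fun i _ => ?_
  rw [Bool.and_eq_true, decide_eq_true_eq]
  rfl

theorem us_le {BL : List (Bool × List ℕ)} {D U : Finset ℕ} (c : Bool)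
    (h : ∀ i ∈ U, i < BL.length ∧ rel BL D i = true) : us BL c U ≤ R BL c D := by
  rw [R_card]
  refine Finset.card_le_card fun i hi => ?_
  rw [Finset.mem_filter] at hi ⊢
  obtain ⟨h1, h2⟩ := h i hi.1
  exact ⟨Finset.mem_range.2 h1, hi.2, h2⟩

theorem avail {BL : List (Bool × List ℕ)} {D U : Finset ℕ} {c : Bool}
    (h : us BL c U < R BL c D) :
    ∃ i, i < BL.length ∧ i ∉ U ∧ (BL.getD i (false, [])).1 = c ∧ rel BL D i = true := by
  by_contra hc
  push Not at hc
  refine absurd h (not_lt.2 ?_)
  rw [R_card]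
  refine Finset.card_le_card fun i hi => ?_
  rw [Finset.mem_filter, Finset.mem_range] at hi
  rw [Finset.mem_filter]
  refine ⟨?_, hi.2.1⟩
  by_contra hU
  exact hc i hi.1 hU hi.2.1 hi.2.2

theorem us_insert {BL : List (Bool × List ℕ)} {U : Finset ℕ} {i : ℕ} (hi : i ∉ U) (c : Bool) :
    us BL c (insert i U) = us BL c U + if (BL.getD i (false, [])).1 = c then 1 else 0 := by
  unfold us
  rw [Finset.filter_insert]
  split_ifs with h
  · rw [Finset.card_insert_of_notMem (by simp [hi])]
  · rfl

theorem rel_mono {BL : List (Bool × List ℕ)} {D D' : Finset ℕ} (h : D ⊆ D') {i : ℕ}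
    (hi : rel BL D i = true) : rel BL D' i = true := by
  unfold rel at hi ⊢
  rw [List.all_eq_true] at hi ⊢
  intro a ha
  have := hi a ha
  rw [decide_eq_true_eq] at this ⊢
  exact h this

/-- the number of deleted tops of a group -/
def s (D : Finset ℕ) (j : ℕ) : ℕ := (if 2 * j ∈ D then 1 else 0) + (if 2 * j + 1 ∈ D then 1 else 0)

theorem s_le (D : Finset ℕ) (j : ℕ) : s D j ≤ 2 := by
  unfold s
  split_ifs <;> omega

theorem s_mono {D D' : Finset ℕ} (h : D ⊆ D') (j : ℕ) : s D j ≤ s D' j := by
  unfold s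
  have h1 : 2 * j ∈ D → 2 * j ∈ D' := fun hh => h hh
  have h2 : 2 * j + 1 ∈ D → 2 * j + 1 ∈ D' := fun hh => h hh
  by_cases a1 : 2 * j ∈ D <;> by_cases a2 : 2 * j + 1 ∈ D <;> by_cases a3 : 2 * j ∈ D' <;>
    by_cases a4 : 2 * j + 1 ∈ D' <;> simp_all

theorem s_insert_ne {D : Finset ℕ} {a j : ℕ} (h : a / 2 ≠ j) : s (insert a D) j = s D j := by
  unfold s
  have h1 : 2 * j ≠ a := by omega
  have h2 : 2 * j + 1 ≠ a := by omega
  simp [h1, h2]

theorem s_insert_eq {D : Finset ℕ} {a : ℕ} (h : a ∉ D) :
    s (insert a D) (a / 2) = s D (a / 2) + 1 := by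
  unfold s
  have h3 : a = 2 * (a / 2) ∨ a = 2 * (a / 2) + 1 := by omega
  rcases h3 with h3 | h3
  · have e1 : 2 * (a / 2) ∉ D := by rwa [← h3]
    have e2 : 2 * (a / 2) + 1 ≠ a := by omega
    have e3 : 2 * (a / 2) ∈ insert a D := by rw [← h3]; exact Finset.mem_insert_self _ _
    rw [if_pos e3, if_neg e1]
    simp only [Finset.mem_insert, e2, false_or]
    omega
  · have e1 : 2 * (a / 2) + 1 ∉ D := by rwa [← h3]
    have e2 : 2 * (a / 2) ≠ a := by omega
    have e3 : 2 * (a / 2) + 1 ∈ insert a D := by rw [← h3]; exact Finset.mem_insert_self _ _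
    rw [if_pos e3, if_neg e1]
    simp only [Finset.mem_insert, e2, false_or]

/-- the bottoms between the groups `j` and `j + 1` -/
def blk (C j : ℕ) : List (Bool × List ℕ) :=
  List.replicate C (!own (j + 1), [2 * (j + 1)]) ++
  (List.replicate C (!own (j + 1), [2 * (j + 1) + 1]) ++
  (List.replicate C (own (j + 1), [2 * j, 2 * (j + 1)]) ++
  (List.replicate C (own (j + 1), [2 * j, 2 * (j + 1) + 1]) ++
  (List.replicate C (own (j + 1), [2 * j + 1, 2 * (j + 1)]) ++
  List.replicate C (own (j + 1), [2 * j + 1, 2 * (j + 1) + 1])))))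

theorem R_blk_not (C j : ℕ) (D : Finset ℕ) : R (blk C j) (!own (j + 1)) D = C * s D (j + 1) := by
  unfold blk
  simp only [R_append, R_replicate]
  unfold s
  have h : own (j + 1) ≠ !own (j + 1) := by cases own (j + 1) <;> simp
  by_cases a1 : 2 * (j + 1) ∈ D <;> by_cases a2 : 2 * (j + 1) + 1 ∈ D <;> simp [h, a1, a2] <;> omega

theorem R_blk_own (C j : ℕ) (D : Finset ℕ) :
    R (blk C j) (own (j + 1)) D = C * (s D j * s D (j + 1)) := by
  unfold blk
  simp only [R_append, R_replicate]
  unfold s
  have h : (!own (j + 1)) ≠ own (j + 1) := by cases own (j + 1) <;> simp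
  by_cases a1 : 2 * (j + 1) ∈ D <;> by_cases a2 : 2 * (j + 1) + 1 ∈ D <;>
    by_cases a3 : 2 * j ∈ D <;> by_cases a4 : 2 * j + 1 ∈ D <;> simp [h, a1, a2, a3, a4] <;> omega

/-- the bottoms between consecutive groups -/
def CL (C k : ℕ) : List (Bool × List ℕ) := (List.range k).flatMap (blk C)

theorem R_CL_succ (C k : ℕ) (c : Bool) (D : Finset ℕ) :
    R (CL C (k + 1)) c D = R (CL C k) c D + R (blk C k) c D := by
  unfold CL
  rw [List.range_succ, List.flatMap_append, R_append]
  simp

theorem R_CL_zero (C : ℕ) (c : Bool) (D : Finset ℕ) : R (CL C 0) c D = 0 := by simp [CL, R]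

theorem blk_le {C j : ℕ} {D : Finset ℕ} {X : Bool} (h1 : own j = X → s D j ≤ 1)
    (h1' : own (j + 1) = X → s D (j + 1) ≤ 1)
    (h2 : own (j + 1) = X → 1 ≤ s D (j + 1) → 1 ≤ s D j) :
    R (blk C j) (!X) D ≤ R (blk C j) X D := by
  have ho := own_succ j
  by_cases h : own (j + 1) = X
  · subst h
    rw [R_blk_not, R_blk_own]
    refine Nat.mul_le_mul le_rfl ?_
    rcases Nat.eq_zero_or_pos (s D (j + 1)) with h3 | h3
    · rw [h3]; simp
    · have := h2 rfl h3
      calc s D (j + 1) = 1 * s D (j + 1) := by rw [one_mul]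
        _ ≤ _ := Nat.mul_le_mul this le_rfl
  · have hX : X = !own (j + 1) := by
      revert h
      cases own (j + 1) <;> cases X <;> simp
    have hj : own j = X := by rw [hX, ho, Bool.not_not]
    subst hX
    rw [R_blk_not, Bool.not_not, R_blk_own]
    refine Nat.mul_le_mul le_rfl ?_
    calc s D j * s D (j + 1) ≤ 1 * s D (j + 1) := Nat.mul_le_mul (h1 hj) le_rfl
      _ = _ := one_mul _

theorem blk_gap {C j : ℕ} {D : Finset ℕ} {X : Bool} (h : own (j + 1) = !X)
    (h1 : 1 ≤ s D (j + 1)) (h2 : s D j = 0) :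
    R (blk C j) (!X) D + C ≤ R (blk C j) X D := by
  rw [← h]
  have hX : X = !own (j + 1) := by rw [h, Bool.not_not]
  rw [hX, R_blk_not, R_blk_own, h2]
  have := Nat.mul_le_mul (le_refl C) h1
  simp only [Nat.zero_mul, Nat.mul_zero, Nat.zero_add]
  omega

theorem CL_le {C : ℕ} {D : Finset ℕ} {X : Bool} (h1 : ∀ j, own j = X → s D j ≤ 1)
    (h2 : ∀ j, own (j + 1) = X → 1 ≤ s D (j + 1) → 1 ≤ s D j) (k : ℕ) :
    R (CL C k) (!X) D ≤ R (CL C k) X D := by
  induction k with
  | zero => simp [R_CL_zero]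
  | succ k ih =>
    rw [R_CL_succ, R_CL_succ]
    exact Nat.add_le_add ih (blk_le (h1 k) (h1 (k + 1)) (h2 k))

theorem CL_gap {C : ℕ} {D : Finset ℕ} {X : Bool} (h1 : ∀ j, own j = X → s D j ≤ 1)
    (h2 : ∀ j, own (j + 1) = X → 1 ≤ s D (j + 1) → 1 ≤ s D j) (k : ℕ)
    (h3 : ∃ j, j < k ∧ own (j + 1) = !X ∧ 1 ≤ s D (j + 1) ∧ s D j = 0) :
    R (CL C k) (!X) D + C ≤ R (CL C k) X D := by
  induction k with
  | zero =>
    obtain ⟨j, hj, _⟩ := h3
    omega
  | succ k ih =>
    rw [R_CL_succ, R_CL_succ]
    obtain ⟨j, hj, h4, h5, h6⟩ := h3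
    have e1 := CL_le (C := C) h1 h2 k
    have e2 := blk_le (C := C) (h1 k) (h1 (k + 1)) (h2 k)
    rcases Nat.lt_or_ge j k with h | h
    · have := ih ⟨j, h, h4, h5, h6⟩
      omega
    · obtain rfl : j = k := by omega
      have := blk_gap (C := C) h4 h5 h6
      omega

/-- the bottoms which forbid to delete both tops of a group -/
def KK (K m : ℕ) : List (Bool × List ℕ) :=
  (List.range m).flatMap fun j => List.replicate K (!own j, [2 * j, 2 * j + 1])

theorem R_KK_succ (K k : ℕ) (c : Bool) (D : Finset ℕ) : R (KK K (k + 1)) c D =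
    R (KK K k) c D + if own k = !c ∧ s D k = 2 then K else 0 := by
  unfold KK
  rw [List.range_succ, List.flatMap_append, R_append]
  congr 1
  rw [List.flatMap_singleton, R_replicate]
  congr 1
  rw [eq_iff_iff]
  refine and_congr ?_ ?_
  · cases own k <;> cases c <;> simp
  · unfold s
    by_cases a1 : 2 * k ∈ D <;> by_cases a2 : 2 * k + 1 ∈ D <;> simp [a1, a2]

theorem R_KK_zero {K : ℕ} {c : Bool} {D : Finset ℕ} (h : ∀ j, own j = !c → s D j ≤ 1) (m : ℕ) :
    R (KK K m) c D = 0 := by
  induction m with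
  | zero => simp [KK, R]
  | succ m ih =>
    rw [R_KK_succ, ih, if_neg]
    rintro ⟨h1, h2⟩
    have := h m h1
    omega

theorem R_KK_ge {K : ℕ} {c : Bool} {D : Finset ℕ} (m : ℕ)
    (h : ∃ j < m, own j = !c ∧ s D j = 2) : K ≤ R (KK K m) c D := by
  induction m with
  | zero => obtain ⟨j, hj, _⟩ := h; omega
  | succ m ih =>
    rw [R_KK_succ]
    obtain ⟨j, hj, h1, h2⟩ := h
    rcases Nat.lt_or_ge j m with h | h
    · have := ih ⟨j, h, h1, h2⟩
      omega
    · obtain rfl : j = m := by omega
      rw [if_pos ⟨h1, h2⟩]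
      omega

end Pool.Agent.Q227.PX
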