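import Pool.Agent.H656R2.AK.QG
import Pool.Agent.H656R2.AK.GameIn
import Pool.Agent.Q227.WD.Sk
import Pool.Agent.Q227.PX.Cnt

/-!
# The strategies of the second player
-/

namespace Pool.Agent.Q227.PX

open Pool.Agent.H656R2.AK Pool.Agent.H623R2.PS

/-- the group of a variable -/
def gg (Q : QF) (i : ℕ) : ℕ := 2 * i + (!Q.1.getD i false).toNat

/-- the bottoms of the clauses -/
def TT (Q : QF) : List (Bool × List ℕ) :=
  Q.2.map fun c => (false, c.map fun l => 2 * gg Q l.2 + (!l.1).toNat)

/-- the number of groups -/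
def mm (Q : QF) : ℕ := 2 * Q.1.length

/-- the size of the blocks -/
def cC (Q : QF) : ℕ := Q.2.length + 2 * mm Q + 1

/-- the large multiplicity -/
def cK (Q : QF) : ℕ := (CL (cC Q) (mm Q - 1)).length + Q.2.length + 2 * mm Q + 1

/-- all bottoms -/
def BQ (Q : QF) : List (Bool × List ℕ) := CL (cC Q) (mm Q - 1) ++ (TT Q ++ KK (cK Q) (mm Q))

theorem R_BQ (Q : QF) (c : Bool) (D : Finset ℕ) : R (BQ Q) c D =
    R (CL (cC Q) (mm Q - 1)) c D + (R (TT Q) c D + R (KK (cK Q) (mm Q)) c D) := by
  unfold BQ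
  rw [R_append, R_append]

theorem R_TT_true (Q : QF) (D : Finset ℕ) : R (TT Q) true D = 0 := by
  unfold R TT
  rw [List.countP_eq_zero]
  intro b hb
  rw [List.mem_map] at hb
  obtain ⟨c, -, rfl⟩ := hb
  simp

theorem R_TT_le (Q : QF) (c : Bool) (D : Finset ℕ) : R (TT Q) c D ≤ Q.2.length := by
  refine (R_le _ _ _).trans ?_
  simp [TT]

/-- The general conditions for the deleted tops, from the point of view of the second player. -/
structure Gd (Q : QF) (X : Bool) (D U : Finset ℕ) : Prop where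
  d : ∀ a ∈ D, a < 2 * mm Q
  u : ∀ i ∈ U, i < (BQ Q).length ∧ rel (BQ Q) D i = true
  s1 : ∀ j, own j = X → s D j ≤ 1
  s2 : ∀ j, own (j + 1) = X → 1 ≤ s D (j + 1) → 1 ≤ s D j

/-- the opponent has made a mistake -/
def Er (Q : QF) (X : Bool) (D : Finset ℕ) : Prop :=
  (∃ j, j < mm Q - 1 ∧ own (j + 1) = !X ∧ 1 ≤ s D (j + 1) ∧ s D j = 0) ∨
    ∃ j, j < mm Q ∧ own j = !X ∧ s D j = 2

theorem Gd.card {Q : QF} {X : Bool} {D U : Finset ℕ} (h : Gd Q X D U) : D.card ≤ 2 * mm Q := by
  have : D ⊆ Finset.range (2 * mm Q) := fun a ha => Finset.mem_range.2 (h.d a ha)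
  simpa using Finset.card_le_card this

theorem Gd.lt {Q : QF} {X : Bool} {D U : Finset ℕ} (h : Gd Q X D U) (he : Er Q X D)
    (hb : us (BQ Q) X U ≤ us (BQ Q) (!X) U + D.card) : us (BQ Q) X U < R (BQ Q) X D := by
  have h1 := h.card
  have h2 := us_le (BL := BQ Q) (!X) h.u
  have h3 := R_BQ Q X D
  have h4 := R_BQ Q (!X) D
  have h5 : R (KK (cK Q) (mm Q)) (!X) D = 0 :=
    R_KK_zero (by rw [Bool.not_not]; exact h.s1) _
  have h6 := R_TT_le Q (!X) D
  rcases he with he | he
  · have h7 := CL_gap (C := cC Q) h.s1 h.s2 (mm Q - 1) he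
    unfold cC at *
    omega
  · have h7 : cK Q ≤ R (KK (cK Q) (mm Q)) X D := R_KK_ge (mm Q) he
    have h8 := R_le (CL (cC Q) (mm Q - 1)) (!X) D
    unfold cK at *
    omega

/-- the positions in which the opponent has made a mistake -/
def BC (Q : QF) (X : Bool) (st : St) : Prop :=
  st.2.2 = (!X) ∧ Gd Q X st.1 st.2.1 ∧ Er Q X st.1 ∧
    us (BQ Q) X st.2.1 ≤ us (BQ Q) (!X) st.2.1 + st.1.card + 1

theorem ans {Q : QF} {X : Bool} {D U : Finset ℕ} (h : Gd Q X D U) (he : Er Q X D)
    (hb : us (BQ Q) X U ≤ us (BQ Q) (!X) U + D.card) :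
    ∃ c, Mv (mm Q) (BQ Q) (D, U, X) c ∧ BC Q X c := by
  obtain ⟨i, hi, hU, hc, hr⟩ := avail (h.lt he hb)
  refine ⟨_, Mv.bot i hi hU hc hr, rfl, ⟨h.d, ?_, h.s1, h.s2⟩, he, ?_⟩
  · intro i' hi'
    rcases Finset.mem_insert.1 hi' with rfl | hi'
    · exact ⟨hi, hr⟩
    · exact h.u i' hi'
  · simp only
    rw [us_insert hU, us_insert hU, if_pos hc]
    have : X ≠ !X := by cases X <;> simp
    rw [if_neg (by rw [hc]; exact this)]
    omega

theorem Gd.insert_top {Q : QF} {X : Bool} {D U : Finset ℕ} (h : Gd Q X D U) {a : ℕ}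
    (ha : a < 2 * mm Q) (ho : own (a / 2) = !X) : Gd Q X (insert a D) U := by
  have key : ∀ j, own j = X → s (insert a D) j = s D j := by
    intro j hj
    refine s_insert_ne fun e => ?_
    rw [e, hj] at ho
    cases X <;> simp at ho
  refine ⟨?_, ?_, ?_, ?_⟩
  · intro b hb
    rcases Finset.mem_insert.1 hb with rfl | hb
    · exact ha
    · exact h.d b hb
  · intro i hi
    exact ⟨(h.u i hi).1, rel_mono (Finset.subset_insert _ _) (h.u i hi).2⟩
  · intro j hj
    rw [key j hj]
    exact h.s1 j hj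
  · intro j hj h1
    rw [key _ hj] at h1
    exact (h.s2 j hj h1).trans (s_mono (Finset.subset_insert _ _) _)

theorem Er.insert_top {Q : QF} {X : Bool} {D : Finset ℕ} (h : Er Q X D) {a : ℕ}
    (ho : own (a / 2) = !X) : Er Q X (insert a D) := by
  rcases h with ⟨j, h1, h2, h3, h4⟩ | ⟨j, h1, h2, h3⟩
  · refine Or.inl ⟨j, h1, h2, h3.trans (s_mono (Finset.subset_insert _ _) _), ?_⟩
    rw [s_insert_ne, h4]
    intro e
    rw [e] at ho
    rw [own_succ, ho] at h2
    cases X <;> simp at h2
  · refine Or.inr ⟨j, h1, h2, ?_⟩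
    have e1 := s_mono (D := D) (D' := insert a D) (Finset.subset_insert _ _) j
    have e2 := s_le (insert a D) j
    omega

theorem BC_step {Q : QF} {X : Bool} {a b : St} (h : BC Q X a) (hab : Mv (mm Q) (BQ Q) a b) :
    ∃ c, Mv (mm Q) (BQ Q) b c ∧ BC Q X c := by
  obtain ⟨h1, h2, h3, h4⟩ := h
  cases hab with
  | @top D U p t ha hD ho =>
    simp only at h1 h2 h3 h4
    subst h1
    rw [Bool.not_not]
    refine ans (h2.insert_top ha ho) (h3.insert_top ho) ?_
    rw [Finset.card_insert_of_notMem hD]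
    omega
  | @bot D U p i hi hU hc hr =>
    simp only at h1 h2 h3 h4
    subst h1
    rw [Bool.not_not]
    refine ans ⟨h2.d, ?_, h2.s1, h2.s2⟩ h3 ?_
    · intro i' hi'
      rcases Finset.mem_insert.1 hi' with rfl | hi'
      · exact ⟨hi, hr⟩
      · exact h2.u i' hi'
    · rw [us_insert hU, us_insert hU, if_pos hc]
      have : (!X) ≠ X := by cases X <;> simp
      rw [if_neg (by rw [hc]; exact this)]
      omega

/-! ### The main line -/

/-- the values of the groups -/
def vA (Q : QF) (X : Bool) (sk : (ℕ → Bool) → ℕ → Bool) (x : ℕ → Bool) (j : ℕ) : Bool :=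
  if own j = X then (if (!Q.1.getD (j / 2) false) = X then sk x (j / 2) else false) else x (j / 2)

/-- the deleted tops -/
def Dk (v : ℕ → Bool) (k : ℕ) : Finset ℕ := (Finset.range k).image fun j => 2 * j + (v j).toNat

theorem mem_Dk {v : ℕ → Bool} {k j : ℕ} {b : Bool} :
    2 * j + b.toNat ∈ Dk v k ↔ j < k ∧ v j = b := by
  unfold Dk
  rw [Finset.mem_image]
  constructor
  · rintro ⟨i, hi, h⟩
    have e1 := Bool.toNat_le (v i)
    have e2 := Bool.toNat_le b
    obtain rfl : i = j := by omega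
    refine ⟨Finset.mem_range.1 hi, ?_⟩
    cases hv : v i <;> cases b <;> simp_all
  · rintro ⟨h, rfl⟩
    exact ⟨j, Finset.mem_range.2 h, rfl⟩

theorem mem_Dk0 {v : ℕ → Bool} {k j : ℕ} : 2 * j ∈ Dk v k ↔ j < k ∧ v j = false := by
  have := mem_Dk (v := v) (k := k) (j := j) (b := false)
  simpa using this

theorem mem_Dk1 {v : ℕ → Bool} {k j : ℕ} : 2 * j + 1 ∈ Dk v k ↔ j < k ∧ v j = true := by
  have := mem_Dk (v := v) (k := k) (j := j) (b := true)
  simpa using this

theorem s_Dk (v : ℕ → Bool) (k j : ℕ) : s (Dk v k) j = if j < k then 1 else 0 := by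
  unfold s
  by_cases h : j < k <;> cases hv : v j <;> simp [mem_Dk0, mem_Dk1, h, hv]

theorem Dk_zero (v : ℕ → Bool) : Dk v 0 = ∅ := by simp [Dk]

theorem Dk_succ (v : ℕ → Bool) (k : ℕ) : Dk v (k + 1) = insert (2 * k + (v k).toNat) (Dk v k) := by
  unfold Dk
  rw [Finset.range_add_one, Finset.image_insert]

theorem Dk_congr {v v' : ℕ → Bool} {k : ℕ} (h : ∀ j < k, v j = v' j) : Dk v k = Dk v' k := by
  unfold Dk
  refine Finset.image_congr fun j hj => ?_
  have hj' : j < k := by simpa using hj
  change 2 * j + (v j).toNat = 2 * j + (v' j).toNat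
  rw [h j hj']

/-- A strategy for the variables of the player `X`. -/
structure Sg (Q : QF) (X : Bool) (sk : (ℕ → Bool) → ℕ → Bool) : Prop where
  e : ∀ x i, i < Q.1.length → (!Q.1.getD i false) ≠ X → sk x i = x i
  l : ∀ x x' i, i < Q.1.length → (∀ j < i, x j = x' j) → (!Q.1.getD i false) = X →
    sk x i = sk x' i
  f : ∀ x, evc ((List.range Q.1.length).map (sk x)) Q.2 = X

variable {Q : QF} {X : Bool} {sk : (ℕ → Bool) → ℕ → Bool}

theorem gg_div (Q : QF) (i : ℕ) : gg Q i / 2 = i := by
  unfold gg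
  have := Bool.toNat_le (!Q.1.getD i false)
  omega

theorem own_gg (Q : QF) (i : ℕ) : own (gg Q i) = !Q.1.getD i false := by
  unfold gg own
  cases Q.1.getD i false <;> simp

theorem vA_gg (hs : Sg Q X sk) (x : ℕ → Bool) {i : ℕ} (hi : i < Q.1.length) :
    vA Q X sk x (gg Q i) = sk x i := by
  unfold vA
  rw [own_gg, gg_div]
  by_cases h : (!Q.1.getD i false) = X
  · rw [if_pos h, if_pos h]
  · rw [if_neg h, hs.e x i hi h]

theorem vA_congr (hs : Sg Q X sk) {x x' : ℕ → Bool} {j : ℕ} (hj : j < mm Q)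
    (h : ∀ i < j / 2, x i = x' i) (h' : own j ≠ X → x (j / 2) = x' (j / 2)) :
    vA Q X sk x j = vA Q X sk x' j := by
  unfold vA
  by_cases h1 : own j = X
  · rw [if_pos h1, if_pos h1]
    by_cases h2 : (!Q.1.getD (j / 2) false) = X
    · rw [if_pos h2, if_pos h2]
      refine hs.l x x' _ ?_ h h2
      unfold mm at hj
      omega
    · rw [if_neg h2, if_neg h2]
  · rw [if_neg h1, if_neg h1]
    exact h' h1

/-- the literals of a clause are falsified -/
theorem all_TT (hs : Sg Q X sk) (hQ : QFwf Q) (x : ℕ → Bool) (k : ℕ) {c : List (Bool × ℕ)}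
    (hc : c ∈ Q.2) : (∀ a ∈ c.map (fun l => 2 * gg Q l.2 + (!l.1).toNat),
      a ∈ Dk (vA Q X sk x) k) ↔ ∀ l ∈ c, gg Q l.2 < k ∧ sk x l.2 = !l.1 := by
  constructor
  · intro h l hl
    have := h _ (List.mem_map.2 ⟨l, hl, rfl⟩)
    rw [mem_Dk, vA_gg hs x (hQ c hc l hl)] at this
    exact this
  · intro h a ha
    obtain ⟨l, hl, rfl⟩ := List.mem_map.1 ha
    rw [mem_Dk, vA_gg hs x (hQ c hc l hl)]
    exact h l hl

theorem evc_false_iff (hQ : QFwf Q) (y : ℕ → Bool) :
    evc ((List.range Q.1.length).map y) Q.2 = false ↔ ∃ c ∈ Q.2, ∀ l ∈ c, y l.2 = !l.1 := by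
  have hd : ∀ i, i < Q.1.length → ((List.range Q.1.length).map y).getD i false = y i := by
    intro i hi
    simp [List.getD_eq_getElem?_getD, hi]
  unfold evc
  rw [List.all_eq_false]
  refine exists_congr fun c => and_congr_right fun hc => ?_
  rw [Bool.not_eq_true, List.any_eq_false]
  refine forall_congr' fun l => imp_congr_right fun hl => ?_
  rw [hd _ (hQ c hc l hl)]
  cases y l.2 <;> cases l.1 <;> simp

theorem R_TT_zero (hs : Sg Q true sk) (hQ : QFwf Q) (x : ℕ → Bool) (k : ℕ) (c : Bool) :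
    R (TT Q) c (Dk (vA Q true sk x) k) = 0 := by
  unfold R TT
  rw [List.countP_eq_zero]
  intro b hb
  rw [List.mem_map] at hb
  obtain ⟨cl, hcl, rfl⟩ := hb
  rw [Bool.and_eq_true, not_and]
  intro _ h
  rw [List.all_eq_true] at h
  have h1 := (all_TT hs hQ x k hcl).1 fun a ha => by simpa using h a ha
  have h2 := hs.f x
  have h3 := (evc_false_iff hQ (sk x)).2 ⟨cl, hcl, fun l hl => (h1 l hl).2⟩
  rw [h2] at h3
  exact absurd h3 (by simp)

theorem R_TT_pos (hs : Sg Q false sk) (hQ : QFwf Q) (x : ℕ → Bool) :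
    1 ≤ R (TT Q) false (Dk (vA Q false sk x) (mm Q)) := by
  obtain ⟨cl, hcl, h⟩ := (evc_false_iff hQ (sk x)).1 (hs.f x)
  unfold R
  rw [Nat.one_le_iff_ne_zero, ← Nat.pos_iff_ne_zero, List.countP_pos_iff]
  refine ⟨(false, cl.map fun l => 2 * gg Q l.2 + (!l.1).toNat), List.mem_map.2 ⟨cl, hcl, rfl⟩, ?_⟩
  rw [Bool.and_eq_true]
  refine ⟨by simp, ?_⟩
  rw [List.all_eq_true]
  intro a ha
  rw [decide_eq_true_eq]
  refine (all_TT hs hQ x (mm Q) hcl).2 (fun l hl => ⟨?_, h l hl⟩) a ha
  have h1 := hQ cl hcl l hl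
  have h2 := Bool.toNat_le (!Q.1.getD l.2 false)
  unfold gg mm
  omega

theorem R_CL_Dk (C k' : ℕ) (v : ℕ → Bool) (k : ℕ) (c : Bool) :
    R (CL C k') c (Dk v k) = R (CL C k') (!c) (Dk v k) := by
  have key : ∀ c, R (CL C k') (!c) (Dk v k) ≤ R (CL C k') c (Dk v k) := by
    intro c
    refine CL_le (fun j _ => ?_) (fun j _ h => ?_) _
    · rw [s_Dk]; split_ifs <;> omega
    · rw [s_Dk] at h ⊢
      split_ifs at h with h1
      · rw [if_pos (by omega)]
      · omega
  have h1 := key c
  have h2 := key (!c)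
  rw [Bool.not_not] at h2
  omega

theorem R_KK_Dk (K m : ℕ) (v : ℕ → Bool) (k : ℕ) (c : Bool) : R (KK K m) c (Dk v k) = 0 :=
  R_KK_zero (fun j _ => by rw [s_Dk]; split_ifs <;> omega) _

/-- the advance of the second player -/
def dl (Q : QF) (X : Bool) (k : ℕ) : ℕ := if X = false ∧ k = mm Q then 1 else 0

theorem R_adv (hs : Sg Q X sk) (hQ : QFwf Q) (x : ℕ → Bool) (k : ℕ) :
    R (BQ Q) (!X) (Dk (vA Q X sk x) k) + dl Q X k ≤ R (BQ Q) X (Dk (vA Q X sk x) k) := by
  rw [R_BQ, R_BQ, R_KK_Dk, R_KK_Dk, R_CL_Dk _ _ _ _ X]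
  cases X with
  | true =>
    rw [R_TT_zero hs hQ, R_TT_zero hs hQ]
    simp [dl]
  | false =>
    rw [Bool.not_false, R_TT_true]
    unfold dl
    split_ifs with h
    · have := R_TT_pos hs hQ x
      rw [← h.2] at this
      omega
    · omega

theorem Gd_Dk (v : ℕ → Bool) {k : ℕ} (hk : k ≤ mm Q) {U : Finset ℕ}
    (hU : ∀ i ∈ U, i < (BQ Q).length ∧ rel (BQ Q) (Dk v k) i = true) (X : Bool) :
    Gd Q X (Dk v k) U := by
  refine ⟨?_, hU, ?_, ?_⟩
  · intro a ha
    unfold Dk at ha
    rw [Finset.mem_image] at ha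
    obtain ⟨j, hj, rfl⟩ := ha
    have := Bool.toNat_le (v j)
    have := Finset.mem_range.1 hj
    omega
  · intro j _
    rw [s_Dk]; split_ifs <;> omega
  · intro j _ h
    rw [s_Dk] at h ⊢
    split_ifs at h with h1
    · rw [if_pos (by omega)]
    · omega

/-- the positions of the main line -/
def PA (Q : QF) (X : Bool) (sk : (ℕ → Bool) → ℕ → Bool) (st : St) : Prop :=
  st.2.2 = (!X) ∧ ∃ x k, k ≤ mm Q ∧ st.1 = Dk (vA Q X sk x) k ∧ (k = mm Q ∨ own k = !X) ∧
    (∀ i ∈ st.2.1, i < (BQ Q).length ∧ rel (BQ Q) st.1 i = true) ∧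
    us (BQ Q) X st.2.1 = us (BQ Q) (!X) st.2.1 + dl Q X k

theorem own_mm (Q : QF) : own (mm Q) = false := by
  unfold own mm
  simp

theorem PA_bot {D U : Finset ℕ} (hs : Sg Q X sk) (hQ : QFwf Q) {x : ℕ → Bool} {k : ℕ}
    (hk : k ≤ mm Q) (hD : D = Dk (vA Q X sk x) k) (hk' : k = mm Q ∨ own k = !X)
    (hU : ∀ i ∈ U, i < (BQ Q).length ∧ rel (BQ Q) D i = true)
    (hb : us (BQ Q) X U + 1 = us (BQ Q) (!X) U + dl Q X k) (hlt : us (BQ Q) X U < R (BQ Q) X D) :
    ∃ c, Mv (mm Q) (BQ Q) (D, U, X) c ∧ (PA Q X sk c ∨ BC Q X c) := by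
  obtain ⟨i, hi, hU', hc, hr⟩ := avail hlt
  refine ⟨_, Mv.bot i hi hU' hc hr, Or.inl ⟨rfl, x, k, hk, hD, hk', ?_, ?_⟩⟩
  · intro i' hi'
    rcases Finset.mem_insert.1 hi' with rfl | hi'
    · exact ⟨hi, hr⟩
    · exact hU i' hi'
  · simp only
    rw [us_insert hU', us_insert hU', if_pos hc]
    have : X ≠ !X := by cases X <;> simp
    rw [if_neg (by rw [hc]; exact this)]
    omega

theorem PA_step {a b : St} (hs : Sg Q X sk) (hQ : QFwf Q) (h : PA Q X sk a)
    (hab : Mv (mm Q) (BQ Q) a b) :
    ∃ c, Mv (mm Q) (BQ Q) b c ∧ (PA Q X sk c ∨ BC Q X c) := by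
  obtain ⟨h1, x, k, hk, h2, h3, h4, h5⟩ := h
  have hdl : dl Q X k ≤ 1 := by unfold dl; split_ifs <;> omega
  cases hab with
  | @bot D U p i hi hU hc hr =>
    simp only at h1 h2 h3 h4 h5
    subst h1
    rw [Bool.not_not]
    have hne : (!X) ≠ X := by cases X <;> simp
    have e1 : us (BQ Q) (!X) (insert i U) = us (BQ Q) (!X) U + 1 := by
      rw [us_insert hU, if_pos hc]
    have e2 : us (BQ Q) X (insert i U) = us (BQ Q) X U := by
      rw [us_insert hU, if_neg (by rw [hc]; exact hne)]
      rfl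
    have hU2 : ∀ i' ∈ insert i U, i' < (BQ Q).length ∧ rel (BQ Q) D i' = true := by
      intro i' hi'
      rcases Finset.mem_insert.1 hi' with rfl | hi'
      · exact ⟨hi, hr⟩
      · exact h4 i' hi'
    refine PA_bot hs hQ hk h2 h3 hU2 (by omega) ?_
    have e3 := us_le (!X) hU2
    have e4 := R_adv hs hQ x k
    rw [← h2] at e4
    omega
  | @top D U p t ht hD ho =>
    simp only at h1 h2 h3 h4 h5
    subst h1
    rw [Bool.not_not]
    have hG := Gd_Dk (vA Q X sk x) hk (U := U) (by rw [← h2]; exact h4) X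
    rw [← h2] at hG
    have hans : Er Q X (insert t D) → ∃ c, Mv (mm Q) (BQ Q) (insert t D, U, X) c ∧
        (PA Q X sk c ∨ BC Q X c) := by
      intro he
      obtain ⟨c, hc1, hc2⟩ := ans (hG.insert_top ht ho) he (by
        rw [Finset.card_insert_of_notMem hD]
        omega)
      exact ⟨c, hc1, Or.inr hc2⟩
    have htm : t / 2 < mm Q := by omega
    rcases Nat.lt_trichotomy (t / 2) k with hlt | heq | hgt
    · -- the second top of a group
      refine hans (Or.inr ⟨t / 2, htm, ho, ?_⟩)
      rw [s_insert_eq hD, h2, s_Dk, if_pos hlt]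
    · -- the next group
      have hkm : k < mm Q := by omega
      have hok : own k = !X := by rw [← heq]; exact ho
      set x' : ℕ → Bool := fun i => if i = k / 2 then decide (t % 2 = 1) else x i with hx'
      have hv : ∀ j < k, vA Q X sk x j = vA Q X sk x' j := by
        intro j hj
        refine vA_congr hs (by omega) ?_ ?_
        · intro i hi
          rw [hx']
          simp only
          rw [if_neg (by omega)]
        · intro hj'
          rw [hx']
          simp only
          rw [if_neg]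
          intro e
          apply hj'
          have e1 : j + 1 = k := by omega
          have e2 := own_succ j
          rw [e1, hok] at e2
          cases X <;> cases own j <;> simp_all
      have hvk : vA Q X sk x' k = decide (t % 2 = 1) := by
        unfold vA
        rw [if_neg (by rw [hok]; cases X <;> simp), hx']
        simp
      have ht2 : t = 2 * k + (vA Q X sk x' k).toNat := by
        rw [hvk]
        rcases Nat.mod_two_eq_zero_or_one t with h | h
        · simp [h]; omega
        · simp [h]; omega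
      have hD' : insert t D = Dk (vA Q X sk x') (k + 1) := by
        rw [Dk_succ, ← ht2, h2, Dk_congr hv]
      have hU' : ∀ i ∈ U, i < (BQ Q).length ∧ rel (BQ Q) (insert t D) i = true := fun i hi =>
        ⟨(h4 i hi).1, rel_mono (Finset.subset_insert _ _) (h4 i hi).2⟩
      have hdl0 : dl Q X k = 0 := by
        unfold dl
        rw [if_neg]
        rintro ⟨-, e⟩
        omega
      rcases Nat.lt_or_ge (k + 1) (mm Q) with hk1 | hk1
      · -- commit
        have hnot : 2 * (k + 1) + (vA Q X sk x' (k + 1)).toNat ∉ insert t D := by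
          rw [hD', mem_Dk]
          omega
        have hown : own (k + 1) = X := by rw [own_succ, hok, Bool.not_not]
        have hb1 := Bool.toNat_le (vA Q X sk x' (k + 1))
        refine ⟨_, Mv.top (2 * (k + 1) + (vA Q X sk x' (k + 1)).toNat) (by omega) hnot ?_,
          Or.inl ⟨rfl, x', k + 1 + 1, by omega, ?_, ?_, ?_, ?_⟩⟩
        · have e : (2 * (k + 1) + (vA Q X sk x' (k + 1)).toNat) / 2 = k + 1 := by omega
          rw [e]
          exact hown
        · simp only
          rw [Dk_succ, hD']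
        · right
          rw [own_succ, hown]
        · simp only
          intro i hi
          exact ⟨(hU' i hi).1, rel_mono (Finset.subset_insert _ _) (hU' i hi).2⟩
        · simp only
          rw [h5, hdl0]
          unfold dl
          rw [if_neg]
          rintro ⟨e1, e2⟩
          have e3 := own_succ (k + 1)
          rw [e2, own_mm, hown, e1] at e3
          simp at e3
      · -- the last group
        have hkm2 : k + 1 = mm Q := by omega
        have hX : X = false := by
          have e3 := own_succ k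
          rw [hkm2, own_mm, hok, Bool.not_not] at e3
          exact e3.symm
        have hdl1 : dl Q X (k + 1) = 1 := by
          unfold dl
          rw [if_pos ⟨hX, hkm2⟩]
        refine PA_bot hs hQ (x := x') (k := k + 1) (by omega) hD' (Or.inl hkm2) hU' (by omega) ?_
        have e3 := us_le (!X) hU'
        have e4 := R_adv hs hQ x' (k + 1)
        rw [← hD'] at e4
        omega
    · -- a later group
      have hok : own k = !X := by
        rcases h3 with h3 | h3
        · omega
        · exact h3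
      have hne : t / 2 ≠ k + 1 := by
        intro e
        rw [e, own_succ, hok] at ho
        cases X <;> simp at ho
      refine hans (Or.inl ⟨t / 2 - 1, by omega, ?_, ?_, ?_⟩)
      · rw [Nat.sub_add_cancel (by omega)]
        exact ho
      · rw [Nat.sub_add_cancel (by omega), s_insert_eq hD]
        omega
      · rw [s_insert_ne (by omega), h2, s_Dk, if_neg (by omega)]

theorem not_W_main (hs : Sg Q X sk) (hQ : QFwf Q) {a : St} (h : PA Q X sk a) :
    ¬ W (Mv (mm Q) (BQ Q)) a := by
  refine not_W_of_class (wf_Mv _ _) (fun a => PA Q X sk a ∨ BC Q X a) ?_ (Or.inl h)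
  intro a b ha hab
  rcases ha with ha | ha
  · exact PA_step hs hQ ha hab
  · obtain ⟨c, hc1, hc2⟩ := BC_step ha hab
    exact ⟨c, hc1, Or.inr hc2⟩

/-- White loses if he starts. -/
theorem white_first (Q : QF) : ¬ W (Mv (mm Q) (BQ Q)) (∅, ∅, true) := by
  refine not_W_of_class (wf_Mv _ _) (fun a => a = (∅, ∅, true) ∨ BC Q false a) ?_ (Or.inl rfl)
  intro a b ha hab
  rcases ha with rfl | ha
  · have hG : Gd Q false ∅ ∅ := by
      refine ⟨by simp, by simp, ?_, ?_⟩
      · intro j _
        simp [s]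
      · intro j _ h
        simp [s] at h
    cases hab with
    | top t ht hD ho =>
      have ho' : own (t / 2) = !false := ho
      have h1 : 1 ≤ t / 2 := by
        unfold own at ho
        rw [decide_eq_true_eq] at ho
        omega
      obtain ⟨c, hc1, hc2⟩ := ans (hG.insert_top ht ho') (Or.inl ⟨t / 2 - 1, by omega, by
        rw [Nat.sub_add_cancel h1]; exact ho', by
        rw [Nat.sub_add_cancel h1, s_insert_eq hD]
        omega, by
        rw [s_insert_ne (by omega)]
        simp [s]⟩) (by simp [us])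
      exact ⟨c, hc1, Or.inr hc2⟩
    | bot i hi hU hc hr =>
      exfalso
      have h1 : 1 ≤ R (BQ Q) true ∅ := by
        rw [R_card, Nat.one_le_iff_ne_zero, ← Nat.pos_iff_ne_zero, Finset.card_pos]
        exact ⟨i, Finset.mem_filter.2 ⟨Finset.mem_range.2 hi, hc, hr⟩⟩
      have h2 : R (BQ Q) true ∅ = 0 := by
        rw [R_BQ, R_TT_true, R_KK_zero (by simp [s])]
        have : ∀ k, R (CL (cC Q) k) true ∅ = 0 := by
          intro k
          induction k with
          | zero => exact R_CL_zero _ _ _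
          | succ k ih =>
            rw [R_CL_succ, ih]
            by_cases h : own (k + 1) = true
            · rw [← h, R_blk_own]
              simp [s]
            · have h' : true = !own (k + 1) := by
                cases hh : own (k + 1) <;> simp_all
              rw [h', R_blk_not]
              simp [s]
        rw [this]
      omega
  · obtain ⟨c, hc1, hc2⟩ := BC_step ha hab
    exact ⟨c, hc1, Or.inr hc2⟩

/-- The value of the formula decides the game if Black starts. -/
theorem black_first (hQ : QFwf Q) :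
    ¬ W (Mv (mm Q) (BQ Q)) (∅, ∅, false) ↔ evq Q.1 (fun w => evc w Q.2) = true := by
  constructor
  · intro hW
    by_contra hev
    rw [Bool.not_eq_true] at hev
    obtain ⟨sk, h1, h2, h3⟩ := Pool.Agent.Q227.WD.exists_sk _ _ hev
    have hs : Sg Q false sk := by
      refine ⟨?_, ?_, h3⟩
      · intro x i hi hne
        refine h1 x i ?_
        rw [List.getD_eq_getElem _ _ hi] at hne ⊢
        simpa using hne
      · intro x x' i hi hx hne
        exact h2 x x' i hx (by simpa using hne)
    apply hW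
    rw [W_iff (wf_Mv _ _)]
    rcases Nat.eq_zero_or_pos Q.1.length with h0 | h0
    · have hm : mm Q = 0 := by unfold mm; omega
      have h4 := R_TT_pos hs hQ (fun _ => false)
      rw [hm, Dk_zero] at h4
      have h5 := R_BQ Q false ∅
      obtain ⟨i, hi, hU, hc, hr⟩ := avail (BL := BQ Q) (D := ∅) (U := ∅) (c := false) (by
        simp only [us, Finset.filter_empty, Finset.card_empty]
        omega)
      refine ⟨_, Mv.bot i hi hU hc hr, not_W_main hs hQ ⟨rfl, fun _ => false, 0, by omega, ?_,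
        Or.inl hm.symm, ?_, ?_⟩⟩
      · rw [Dk_zero]
      · intro i' hi'
        simp only [Finset.mem_insert, Finset.notMem_empty, or_false] at hi'
        subst hi'
        exact ⟨hi, hr⟩
      · simp only
        rw [us_insert hU, us_insert hU, if_pos hc, if_neg (by rw [hc]; simp)]
        simp [us, dl, hm]
    · have hb := Bool.toNat_le (vA Q false sk (fun _ => false) 0)
      refine ⟨_, Mv.top (2 * 0 + (vA Q false sk (fun _ => false) 0).toNat)
        (by unfold mm; omega) (by simp) ?_, not_W_main hs hQ ⟨rfl, fun _ => false, 1, by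
          unfold mm; omega, ?_, Or.inr rfl, ?_, ?_⟩⟩
      · have : (2 * 0 + (vA Q false sk (fun _ => false) 0).toNat) / 2 = 0 := by omega
        rw [this]
        rfl
      · simp only
        rw [Dk_succ, Dk_zero]
      · simp
      · have : ¬ (1 = mm Q) := by unfold mm; omega
        simp [us, dl, this]
  · intro hev
    have hev' : evq (Q.1.map not) (fun u => !evc u Q.2) = false := by
      rw [evq_not, hev]
      rfl
    obtain ⟨sk, h1, h2, h3⟩ := Pool.Agent.Q227.WD.exists_sk _ _ hev'
    have hg : ∀ i, i < Q.1.length → ∀ d, (Q.1.map not).getD i d = !Q.1.getD i false := by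
      intro i hi d
      rw [List.getD_eq_getElem _ _ (by simpa using hi), List.getD_eq_getElem _ _ hi]
      simp
    have hs : Sg Q true sk := by
      refine ⟨?_, ?_, ?_⟩
      · intro x i hi hne
        refine h1 x i ?_
        rw [hg i hi]
        simpa using hne
      · intro x x' i hi hx hne
        refine h2 x x' i hx ?_
        rw [hg i hi]
        exact hne
      · intro x
        have := h3 x
        rw [List.length_map] at this
        simpa using this
    refine not_W_main hs hQ ⟨rfl, fun _ => false, 0, by omega, ?_, Or.inr rfl, ?_, ?_⟩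
    · rw [Dk_zero]
    · simp
    · simp [us, dl]

end Pool.Agent.Q227.PX
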